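import Pool.Agent.H92.HD.Cau
import Pool.Agent.H92.HD.Mom

/-!
# The analytic function `Z(t + w)` near a real point, and the lines `σ + it`
-/

namespace Pool.Agent.H92.HC

open MeasureTheory Set Real Metric Filter Topology
open Pool.Agent.H77.HZ Pool.Agent.H92.HD

/-- `Z_σ(t) = Re (e^{iθ(t)} ζ(σ + it))` -/
noncomputable def Zl (σ t : ℝ) : ℝ := (eTh t * riemannZeta (pt σ t)).re

open Classical in
/-- the analytic function `S` of `gam_cont` -/
noncomputable def Sg (t : ℝ) : ℂ → ℂ := if h : 100 ≤ t then Classical.choose (gam_cont h) else fun _ => 1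

lemma Sg_spec {t : ℝ} (ht : 100 ≤ t) : DifferentiableOn ℂ (Sg t) (ball 0 (2 / 5)) ∧
      (∀ w ∈ ball (0:ℂ) (2 / 5), ‖Sg t w - 1‖ ≤ ‖w‖) ∧
      ∀ h : ℝ, |h| < 2 / 5 →
        eTh (t + h) = eTh t * Complex.exp (Complex.I * h * (lam t / 2 : ℝ)) * Sg t h := by
  have : Sg t = Classical.choose (gam_cont ht) := by
    unfold Sg
    rw [dif_pos ht]
  rw [this]
  exact Classical.choose_spec (gam_cont ht)

/-- `Z(t + w)` -/
noncomputable def ZZ (t : ℝ) (w : ℂ) : ℂ :=
  eTh t * Complex.exp (Complex.I * w * (lam t / 2 : ℝ)) * Sg t w *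
    riemannZeta (pt (1 / 2) t + Complex.I * w)

lemma ZZ_ne {t : ℝ} (ht : 100 ≤ t) {w : ℂ} (hw : w ∈ ball (0:ℂ) (2 / 5)) :
    pt (1 / 2) t + Complex.I * w ≠ 1 := by
  intro h
  rw [mem_ball_zero_iff] at hw
  have h1 := congrArg Complex.im h
  rw [Complex.add_im, pt_im, Complex.I_mul_im, Complex.one_im] at h1
  have h2 := Complex.abs_re_le_norm w
  have h3 := (abs_le.mp h2).1
  linarith

lemma ZZ_diff {t : ℝ} (ht : 100 ≤ t) : DifferentiableOn ℂ (ZZ t) (ball 0 (2 / 5)) := by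
  intro w hw
  have h1 : DifferentiableAt ℂ riemannZeta (pt (1 / 2) t + Complex.I * w) :=
    differentiableAt_riemannZeta (ZZ_ne ht hw)
  have h2 : DifferentiableAt ℂ (fun w => riemannZeta (pt (1 / 2) t + Complex.I * w)) w := by
    apply DifferentiableAt.comp (g := riemannZeta) w h1
    fun_prop
  have h3 : DifferentiableAt ℂ (Sg t) w :=
    ((Sg_spec ht).1 w hw).differentiableAt (isOpen_ball.mem_nhds hw)
  have h4 : DifferentiableAt ℂ (fun w => eTh t * Complex.exp (Complex.I * w * (lam t / 2 : ℝ))) w := by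
    fun_prop
  exact ((h4.mul h3).mul h2).differentiableWithinAt

lemma ZZ_real {t : ℝ} (ht : 100 ≤ t) {x : ℝ} (hx : |x| < 2 / 5) : ZZ t x = (Zr (t + x) : ℂ) := by
  have h1 := (abs_lt.mp hx).1
  have h2 := Zr_real (t := t + x) (by linarith)
  have h3 : pt (1 / 2) t + Complex.I * x = pt (1 / 2) (t + x) := by
    unfold pt; push_cast; ring
  unfold ZZ
  rw [h3, ← h2, (Sg_spec ht).2.2 x hx]

lemma ZZ_conj {t : ℝ} (ht : 100 ≤ t) {w : ℂ} (hw : w ∈ ball (0:ℂ) (2 / 5)) :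
    ZZ t ((starRingEnd ℂ) w) = (starRingEnd ℂ) (ZZ t w) :=
  cauR_refl (by norm_num) (ZZ_diff ht) (fun x hx => by rw [ZZ_real ht hx]; exact Complex.ofReal_im _) hw

/-- the size of `ZZ` in terms of zeta -/
lemma ZZ_norm_le {t : ℝ} (ht : 100 ≤ t) {w : ℂ} (hw : w ∈ ball (0:ℂ) (2 / 5)) :
    ‖ZZ t w‖ ≤ 2 * exp (‖w‖ * (lam t / 2)) * ‖riemannZeta (pt (1 / 2) t + Complex.I * w)‖ := by
  have hlam : 0 ≤ lam t := by
    have := lam_near (T := t) (by linarith) le_rfl (by linarith)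
    have h1 : 4 ≤ Real.log t := by
      rw [Real.le_log_iff_exp_le (by linarith)]
      have h2 : exp 4 = exp 1 ^ 4 := by rw [← exp_nat_mul]; norm_num
      have h3 := Real.exp_one_lt_d9
      have h4 : exp 1 ^ 4 ≤ 2.7182818286 ^ 4 := by
        apply pow_le_pow_left₀ (exp_pos 1).le h3.le
      rw [h2]
      refine h4.trans ?_
      norm_num
      linarith
    have := (abs_le.mp this).1
    linarith
  unfold ZZ
  rw [norm_mul, norm_mul, norm_mul, norm_eTh, one_mul]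
  have h1 : ‖Sg t w‖ ≤ 2 := by
    have h2 := (Sg_spec ht).2.1 w hw
    rw [mem_ball_zero_iff] at hw
    have h3 : Sg t w = 1 + (Sg t w - 1) := by ring
    rw [h3]
    refine (norm_add_le _ _).trans ?_
    rw [norm_one]
    linarith
  have h2 : ‖Complex.exp (Complex.I * w * (lam t / 2 : ℝ))‖ ≤ exp (‖w‖ * (lam t / 2)) := by
    rw [Complex.norm_exp]
    apply exp_le_exp.mpr
    have h3 : (Complex.I * w * ((lam t / 2 : ℝ) : ℂ)).re = -w.im * (lam t / 2) := by
      rw [Complex.mul_re, Complex.ofReal_re, Complex.ofReal_im, mul_zero, sub_zero,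
        Complex.I_mul_re]
    rw [h3]
    apply mul_le_mul_of_nonneg_right _ (by linarith)
    have := Complex.abs_im_le_norm w
    have := (abs_le.mp this).1
    linarith
  calc ‖Complex.exp (Complex.I * w * (lam t / 2 : ℝ))‖ * ‖Sg t w‖ *
        ‖riemannZeta (pt (1 / 2) t + Complex.I * w)‖
      ≤ exp (‖w‖ * (lam t / 2)) * 2 * ‖riemannZeta (pt (1 / 2) t + Complex.I * w)‖ := by gcongr
    _ = _ := by ring

/-- the lines -/
lemma Zl_near {t : ℝ} (ht : 100 ≤ t) {x y : ℝ} {w : ℂ} (hwd : w = y - Complex.I * x)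
    (hw : ‖w‖ ≤ 1 / 4) :
    |exp (x * (lam t / 2)) * Zl (1 / 2 + x) (t + y) - (ZZ t w).re| ≤ 4 * ‖w‖ * ‖ZZ t w‖ := by
  have hwb : w ∈ ball (0:ℂ) (2 / 5) := by rw [mem_ball_zero_iff]; linarith
  have hyw : |y| ≤ ‖w‖ := by
    have h1 := Complex.abs_re_le_norm w
    have h2 : w.re = y := by rw [hwd]; simp
    rwa [h2] at h1
  have hy : |y| < 2 / 5 := by linarith
  have hyb : (y:ℂ) ∈ ball (0:ℂ) (2 / 5) := by
    rw [mem_ball_zero_iff, Complex.norm_real, Real.norm_eq_abs]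
    exact hy
  obtain ⟨_, hS1, hSh⟩ := Sg_spec ht
  have h1 := hS1 w hwb
  have h2 := hS1 _ hyb
  rw [Complex.norm_real, Real.norm_eq_abs] at h2
  have h3 : 3 / 4 ≤ ‖Sg t w‖ := by
    have h4 : (1:ℂ) = Sg t w - (Sg t w - 1) := by ring
    have h5 : ‖(1:ℂ)‖ ≤ ‖Sg t w‖ + ‖Sg t w - 1‖ := by
      nth_rewrite 1 [h4]
      exact norm_sub_le _ _
    rw [norm_one] at h5
    linarith
  have hSne : Sg t w ≠ 0 := by
    intro h
    rw [h, norm_zero] at h3
    linarith
  have h6 : ‖Sg t y / Sg t w - 1‖ ≤ 4 * ‖w‖ := by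
    have h7 : Sg t y / Sg t w - 1 = ((Sg t y - 1) - (Sg t w - 1)) / Sg t w := by
      field_simp
      ring
    rw [h7, norm_div, div_le_iff₀ (by linarith)]
    have h8 := norm_sub_le (Sg t y - 1) (Sg t w - 1)
    have h9 : 0 ≤ ‖w‖ := norm_nonneg w
    nlinarith
  have hpt : pt (1 / 2 + x) (t + y) = pt (1 / 2) t + Complex.I * w := by
    rw [hwd]
    unfold pt
    have := Complex.I_mul_I
    push_cast
    linear_combination (x:ℂ) * this
  have hexp : Complex.exp (Complex.I * w * (lam t / 2 : ℝ)) =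
      Complex.exp (Complex.I * y * (lam t / 2 : ℝ)) * ((exp (x * (lam t / 2)) : ℝ) : ℂ) := by
    rw [Complex.ofReal_exp, ← Complex.exp_add]
    congr 1
    rw [hwd]
    have := Complex.I_mul_I
    push_cast
    linear_combination (-(x:ℂ) * (lam t / 2)) * this
  have hmain : ((exp (x * (lam t / 2)) : ℝ) : ℂ) * (eTh (t + y) *
      riemannZeta (pt (1 / 2 + x) (t + y))) = ZZ t w * (Sg t y / Sg t w) := by
    unfold ZZ
    rw [hSh y hy, hpt, hexp]
    field_simp
  have hre : exp (x * (lam t / 2)) * Zl (1 / 2 + x) (t + y) = (ZZ t w * (Sg t y / Sg t w)).re := by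
    rw [← hmain, Complex.re_ofReal_mul]
    rfl
  rw [hre, ← Complex.sub_re]
  refine (Complex.abs_re_le_norm _).trans ?_
  have h10 : ZZ t w * (Sg t y / Sg t w) - ZZ t w = ZZ t w * (Sg t y / Sg t w - 1) := by ring
  rw [h10, norm_mul, mul_comm]
  gcongr

end Pool.Agent.H92.HC
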