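import Pool.Agent.H92.HC.Fin

/-!
# Constancy of the sign near the critical line, with explicit dependence on the parameters
-/

namespace Pool.Agent.H92.HC

open MeasureTheory Set Real Metric Filter Topology
open Pool.Agent.H77.HZ Pool.Agent.H92.HD

/-- `small_set` with an explicit bound -/
theorem small_set_n {K c η : ℝ} (hK : 0 < K) (hc : 0 < c) (hη : 0 < η) {n : ℕ}
    (hn : 4 * K / c < 2 ^ n) {r : ℝ} (hr : 0 < r) {G : ℂ → ℂ}
    (hd : DifferentiableOn ℂ G (closedBall 0 (5 * r)))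
    (hb : ∀ z ∈ closedBall (0:ℂ) (5 * r), ‖G z‖ ≤ K) (hz : ∃ z₀ ∈ closedBall (0:ℂ) r, c ≤ ‖G z₀‖) :
    volume {y : ℝ | |y| ≤ r ∧ ‖G y‖ ≤ c / (4 * (8 * (n + 1) / η + 2) ^ (n + 1))} ≤
      ENNReal.ofReal (η * r) := by
  obtain ⟨z₀, hz₀, hcz⟩ := hz
  have hn0 : 0 < n + 1 := Nat.succ_pos n
  have hKn : K / 2 ^ (n + 1) ≤ c / 4 := by
    rw [div_le_div_iff₀ (by positivity) (by norm_num)]
    rw [div_lt_iff₀ hc] at hn
    have : (2 : ℝ) ^ (n + 1) = 2 * 2 ^ n := by ring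
    rw [this]
    have h2 : (0 : ℝ) < 2 ^ n := by positivity
    nlinarith
  set h : ℝ := η / (2 * (n + 1 : ℕ)) with hh
  have hhpos : 0 < h := by positivity
  have hD : 8 * (n + 1) / η + 2 = 4 / h + 2 := by
    rw [hh]
    push_cast
    field_simp
    ring
  rw [hD]
  set D : ℝ := 4 / h + 2 with hDd
  have hDpos : 0 < D := by positivity
  by_contra hcon
  rw [not_le] at hcon
  have hr1 : 2 * (h * r) * ((n + 1 : ℕ) : ℝ) = η * r := by
    rw [hh]; field_simp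
  rw [← hr1] at hcon
  obtain ⟨l, hl, hp, hm⟩ := greedy (by positivity : 0 < h * r) (n + 1) _ hcon
  have := chain hr hhpos hz₀ l G K (c / (4 * D ^ (n + 1))) hK.le (by positivity) hd hb hp hm
  rw [hl, ← hDd] at this
  have h2 : c / (4 * D ^ (n + 1)) * D ^ (n + 1) = c / 4 := by
    field_simp
  rw [h2] at this
  linarith

/-- on a half circle of radius at most `7 r`, explicit -/
theorem circ_expl {k : ℕ} (hk : 64 ≤ k) {T r ℓ : ℝ} (hT : exp (64 * k) ≤ T)
    (hr : r = 2 * k / Real.log T) (hℓ : ℓ = Real.log T / √k) {ρ : ℝ} (hρ0 : 0 ≤ ρ)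
    (hρ : ρ ≤ 7 * r) {ψ : ℝ} (hψ : ψ ∈ Icc (-(π / 2)) (π / 2)) :
      ∫ t in Ioc T (2 * T), ‖riemannZeta (pt (1 / 2) t + cr ρ ψ) *
        DP (mc ℓ) ⌊exp ℓ⌋₊ (pt (1 / 2 + r) t)‖ ^ 2 ≤
      (2 * (6480 * Cb * ((1 + 16 * √k) ^ 2 * exp (12 * √k) * √k) ^ 2) + 2) * T := by
  have hCb := Cb_pos
  have P : Par k T r ℓ := ⟨hk, hT, hr, hℓ⟩
  have hcos : 0 ≤ cos ψ := Real.cos_nonneg_of_mem_Icc hψ
  have hcos1 : cos ψ ≤ 1 := Real.cos_le_one ψ
  have hr0 := P.r0
  have hr32 := P.r32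
  have hlog := P.log4
  obtain ⟨hl3, hl3'⟩ := P.log3T
  have hT0 := P.T0
  have hell := P.ell0
  have hsk := P.sk
  have hrell := P.rell
  have hl30 : 0 < Real.log (3 * T) := by linarith
  have hre : (cr ρ ψ).re = ρ * cos ψ := shift_cr_re ρ ψ
  have hre0 : 0 ≤ ρ * cos ψ := by positivity
  have hre1 : ρ * cos ψ ≤ ρ := by nlinarith
  have him : |(cr ρ ψ).im| ≤ 1 := by
    rw [shift_cr_im, abs_mul, abs_of_nonneg hρ0]
    have := Real.abs_sin_le_one ψ
    have h0 := abs_nonneg (sin ψ)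
    nlinarith
  have h2l : 2 / Real.log (3 * T) ≤ 1 := by
    rw [div_le_one hl30]; linarith
  have hm := shift_moment P (β := cr ρ ψ) (by rw [hre]; exact hre0) (by rw [hre]; linarith) him
    (κ := 2 / Real.log (3 * T)) le_rfl h2l (by rw [hre]; linarith)
  rw [hre] at hm
  have hδ : ‖cr ρ ψ - (r:ℂ)‖ * ℓ ≤ 16 * √k := by
    have h1 : ‖cr ρ ψ - (r:ℂ)‖ ≤ 8 * r := by
      refine (norm_sub_le _ _).trans ?_
      rw [shift_cr_norm hρ0, Complex.norm_real, Real.norm_eq_abs, abs_of_pos hr0]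
      linarith
    calc ‖cr ρ ψ - (r:ℂ)‖ * ℓ ≤ (8 * r) * ℓ := by gcongr
      _ = 8 * (r * ℓ) := by ring
      _ = _ := by rw [hrell]; ring
  have hexp : exp (max (ρ * cos ψ - r) 0 * ℓ) ≤ exp (12 * √k) := by
    apply exp_le_exp.mpr
    have h1 : max (ρ * cos ψ - r) 0 ≤ 6 * r := by
      apply max_le <;> linarith
    calc max (ρ * cos ψ - r) 0 * ℓ ≤ (6 * r) * ℓ := by gcongr
      _ = 6 * (r * ℓ) := by ring
      _ = _ := by rw [hrell]; ring
  have hκ : (1:ℝ) / (ℓ * (2 / Real.log (3 * T))) ≤ √k := by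
    rw [hℓ]
    have hsk0 : 0 < √(k:ℝ) := by linarith
    have e : (1:ℝ) / (Real.log T / √k * (2 / Real.log (3 * T))) =
        √k * (Real.log (3 * T) / (2 * Real.log T)) := by
      field_simp
    rw [e]
    have h1 : Real.log (3 * T) / (2 * Real.log T) ≤ 1 := by
      rw [div_le_one (by linarith)]
      exact hl3'
    nlinarith
  have hb : (1 + ‖cr ρ ψ - (r:ℂ)‖ * ℓ) ^ 2 * exp (max (ρ * cos ψ - r) 0 * ℓ) /
      (ℓ * (2 / Real.log (3 * T))) ≤ (1 + 16 * √k) ^ 2 * exp (12 * √k) * √k := by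
    rw [div_eq_mul_one_div]
    gcongr
  have hb0 : 0 ≤ (1 + ‖cr ρ ψ - (r:ℂ)‖ * ℓ) ^ 2 * exp (max (ρ * cos ψ - r) 0 * ℓ) /
      (ℓ * (2 / Real.log (3 * T))) := by positivity
  set M : ℝ := (1 + 16 * √k) ^ 2 * exp (12 * √k) * √k with hM
  have hm2 : ∫ t in Ioc T (2 * T), ‖riemannZeta (pt (1 / 2) t + cr ρ ψ) *
        DP (mc ℓ) ⌊exp ℓ⌋₊ (pt (1 / 2 + r) t) - 1‖ ^ 2 ≤ 6480 * Cb * T * M ^ 2 := by
    refine hm.trans ?_
    gcongr
  have hint := shift_integrable P him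
  have h3 : ∫ t in Ioc T (2 * T), ‖riemannZeta (pt (1 / 2) t + cr ρ ψ) *
        DP (mc ℓ) ⌊exp ℓ⌋₊ (pt (1 / 2 + r) t)‖ ^ 2 ≤
      ∫ t in Ioc T (2 * T), (2 * ‖riemannZeta (pt (1 / 2) t + cr ρ ψ) *
        DP (mc ℓ) ⌊exp ℓ⌋₊ (pt (1 / 2 + r) t) - 1‖ ^ 2 + 2) := by
    apply integral_mono_of_nonneg
    · exact Filter.Eventually.of_forall fun t => sq_nonneg _
    · exact (hint.const_mul 2).add (integrableOn_const (by simp))
    · refine Filter.Eventually.of_forall fun t => ?_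
      show ‖_‖ ^ 2 ≤ 2 * ‖_‖ ^ 2 + 2
      set z := riemannZeta (pt (1 / 2) t + cr ρ ψ) * DP (mc ℓ) ⌊exp ℓ⌋₊ (pt (1 / 2 + r) t)
      have h1 : ‖z‖ ≤ ‖z - 1‖ + 1 := by
        have := norm_add_le (z - 1) 1
        simpa using this
      nlinarith [norm_nonneg z, norm_nonneg (z - 1), sq_nonneg (‖z - 1‖ - 1)]
  refine h3.trans ?_
  rw [integral_add (hint.const_mul 2) (integrableOn_const (by simp)), integral_const_mul,
    setIntegral_const]
  have hvol : (volume : Measure ℝ).real (Ioc T (2 * T)) = T := by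
    rw [Measure.real, Real.volume_Ioc, ENNReal.toReal_ofReal (by linarith)]
    ring
  rw [hvol, smul_eq_mul]
  nlinarith [hm2]

/-- near the centre, explicit -/
theorem cent_expl {k : ℕ} {A : ℝ} (hk : 64 ≤ k) (hA : 0 ≤ A) (hAk : A ^ 2 ≤ k)
    {T r ℓ : ℝ} (hT : exp (64 * k) ≤ T) (hr : r = 2 * k / Real.log T)
    (hℓ : ℓ = Real.log T / √k) {x : ℝ} (hx : |x| ≤ A / Real.log T) :
      ∫ t in Ioc T (2 * T), ‖riemannZeta (pt (1 / 2 + r + x) t) *
        DP (mc ℓ) ⌊exp ℓ⌋₊ (pt (1 / 2 + r) t) - 1‖ ^ 2 ≤ 6480 * Cb * (2 * exp 1) ^ 2 / k * T := by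
  have hCb := Cb_pos
  have P : Par k T r ℓ := ⟨hk, hT, hr, hℓ⟩
  have hr0 := P.r0
  have hr32 := P.r32
  have hlog := P.log4
  have hlogk := P.logT
  have hk64 := P.k64
  obtain ⟨hl3, hl3'⟩ := P.log3T
  have hT0 := P.T0
  have hell := P.ell0
  have hsk := P.sk
  have hskk := P.skk
  have hrell := P.rell
  have hrlog := P.rlog
  have hl30 : 0 < Real.log (3 * T) := by linarith
  have hl0 : 0 < Real.log T := by linarith
  have hsk0 : 0 < √(k:ℝ) := by linarith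
  have hAs : A ≤ √k := Real.le_sqrt_of_sq_le hAk
  have hAk8 : A ≤ k := by nlinarith
  have hxl : |x| * Real.log T ≤ A := by
    rwa [le_div_iff₀ hl0] at hx
  obtain ⟨hx1, hx2⟩ := abs_le.mp (le_refl |x|)
  have hx512 : |x| ≤ 1 / 64 := by
    refine hx.trans ?_
    rw [div_le_iff₀ hl0]
    linarith
  have hrx : (k:ℝ) ≤ (r + x) * Real.log T := by
    have : -(|x| * Real.log T) ≤ x * Real.log T := by nlinarith
    rw [add_mul, hrlog]
    linarith
  have hrx0 : 0 < r + x := by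
    by_contra h
    push Not at h
    nlinarith
  have hκ : 2 / Real.log (3 * T) ≤ 2 * (r + x) := by
    rw [div_le_iff₀ hl30]
    nlinarith
  have hre : (((r + x : ℝ) : ℂ)).re = r + x := Complex.ofReal_re _
  have him : |(((r + x : ℝ) : ℂ)).im| ≤ 1 := by
    rw [Complex.ofReal_im]; simp
  have h2l0 : 0 < 2 / Real.log (3 * T) := by positivity
  have hm := shift_moment P (β := ((r + x : ℝ) : ℂ)) (by rw [hre]; exact hrx0.le)
    (by rw [hre]; linarith) him
    (κ := 2 * (r + x)) hκ (by linarith) (by rw [hre]; linarith)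
  rw [hre] at hm
  have hpt : ∀ t : ℝ, pt (1 / 2 + r + x) t = pt (1 / 2) t + ((r + x : ℝ) : ℂ) := by
    intro t
    unfold pt
    push_cast
    ring
  simp_rw [hpt]
  refine hm.trans ?_
  have hxell : |x| * ℓ ≤ 1 := by
    rw [hℓ]
    calc |x| * (Real.log T / √k) = (|x| * Real.log T) / √k := by ring
      _ ≤ √k / √k := by gcongr; linarith
      _ = 1 := div_self hsk0.ne'
  have hδ : ‖(((r + x : ℝ) : ℂ)) - (r:ℂ)‖ * ℓ ≤ 1 := by
    have : (((r + x : ℝ) : ℂ)) - (r:ℂ) = ((x : ℝ) : ℂ) := by push_cast; ring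
    rw [this, Complex.norm_real, Real.norm_eq_abs]
    exact hxell
  have hexp : exp (max (r + x - r) 0 * ℓ) ≤ exp 1 := by
    apply exp_le_exp.mpr
    have h1 : max (r + x - r) 0 ≤ |x| := by
      apply max_le
      · linarith
      · exact abs_nonneg x
    calc max (r + x - r) 0 * ℓ ≤ |x| * ℓ := by gcongr
      _ ≤ 1 := hxell
  have hκb : 2 * √(k:ℝ) ≤ ℓ * (2 * (r + x)) := by
    rw [hℓ]
    have e : Real.log T / √k * (2 * (r + x)) = 2 * ((r + x) * Real.log T) / √k := by ring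
    rw [e, le_div_iff₀ hsk0]
    nlinarith
  have hb : (1 + ‖(((r + x : ℝ) : ℂ)) - (r:ℂ)‖ * ℓ) ^ 2 * exp (max (r + x - r) 0 * ℓ) /
      (ℓ * (2 * (r + x))) ≤ (1 + 1) ^ 2 * exp 1 / (2 * √k) := by
    gcongr
  have hb0 : 0 ≤ (1 + ‖(((r + x : ℝ) : ℂ)) - (r:ℂ)‖ * ℓ) ^ 2 * exp (max (r + x - r) 0 * ℓ) /
      (ℓ * (2 * (r + x))) := by positivity
  have hfin : ((1 + 1) ^ 2 * exp 1 / (2 * √(k:ℝ))) ^ 2 = (2 * exp 1) ^ 2 / k := by
    rw [div_pow, mul_pow 2 √(k:ℝ), Real.sq_sqrt (by linarith)]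
    field_simp
    ring
  calc 6480 * Cb * T * ((1 + ‖(((r + x : ℝ) : ℂ)) - (r:ℂ)‖ * ℓ) ^ 2 *
        exp (max (r + x - r) 0 * ℓ) / (ℓ * (2 * (r + x)))) ^ 2
      ≤ 6480 * Cb * T * ((1 + 1) ^ 2 * exp 1 / (2 * √(k:ℝ))) ^ 2 := by gcongr
    _ = 6480 * Cb * (2 * exp 1) ^ 2 / k * T := by
        rw [hfin]
        ring

/-- the general form -/
theorem sign_core {k : ℕ} (hk64 : (64:ℝ) ≤ k) {A T Cc C1 B K la η δ a : ℝ}
    (hkA : A ≤ k) (hB0 : 0 < B) (hK0 : 0 < K) (hK2 : 200 * exp (16 * k) * B ≤ K ^ 2)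
    (hla : 0 < la) (hη : 0 ≤ η)
    (hsmall : ∀ r : ℝ, 0 < r → ∀ G : ℂ → ℂ, DifferentiableOn ℂ G (closedBall 0 (5 * r)) →
      (∀ z ∈ closedBall (0:ℂ) (5 * r), ‖G z‖ ≤ K) → (∃ z₀ ∈ closedBall (0:ℂ) r, 1 / 2 ≤ ‖G z₀‖) →
      volume {y : ℝ | |y| ≤ r ∧ ‖G y‖ ≤ la} ≤ ENNReal.ofReal (η * r))
    (hδ0 : 0 < δ) (hδ1 : δ ≤ 1) (hδK' : δ ≤ la * k / (2 * K)) (hT101 : 101 ≤ T)
    (hL56 : 56 * (k:ℝ) ≤ Real.log T) (hLK : 64 * k * K / la ≤ Real.log T) (hC1 : 0 ≤ C1)
    (hCc : 0 ≤ Cc)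
    (hcirc : ∀ ψ ∈ Icc (-(π / 2)) (π / 2), ∫ t in Ioc T (2 * T),
      ‖riemannZeta (pt (1 / 2) t + cr (7 * (2 * k / Real.log T)) ψ) *
        Mt (Real.log T / √k) (2 * k / Real.log T) t‖ ^ 2 ≤ C1 * T)
    (hcent : ∀ x : ℝ, |x| ≤ A / Real.log T → ∫ t in Ioc T (2 * T),
      ‖riemannZeta (pt (1 / 2 + 2 * k / Real.log T + x) t) *
        Mt (Real.log T / √k) (2 * k / Real.log T) t - 1‖ ^ 2 ≤ Cc / k * T) (ha : |a| ≤ A) :
    ∃ S : Set ℝ, MeasurableSet S ∧
      volume S ≤ ENNReal.ofReal ((π * C1 / B + 32 * Cc / k + 2 * η) * T) ∧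
      ∀ t ∈ Ioc T (2 * T), t ∉ S → ∀ b : ℝ, (|b - a| ≤ δ ∨ |b + a| ≤ δ) →
        0 < Zl (1 / 2 + a / Real.log T) t * Zl (1 / 2 + b / Real.log T) t := by
  have hπ := Real.pi_pos
  have hT0 : 0 < T := by linarith
  set L := Real.log T with hL
  have hL0 : 0 < L := by nlinarith
  set r : ℝ := 2 * k / L with hr
  set ℓ : ℝ := L / √k with hℓ
  set x : ℝ := a / L with hx
  have hr0 : 0 < r := by rw [hr]; positivity
  have h7 : 7 * r ≤ 1 / 4 := by
    rw [hr, ← mul_div_assoc, div_le_iff₀ hL0]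
    linarith
  have hxr : |x| ≤ r / 2 := by
    rw [hx, hr, abs_div, abs_of_pos hL0]
    rw [div_le_iff₀ hL0]
    field_simp
    linarith
  have hxA : |x| ≤ A / L := by
    rw [hx, abs_div, abs_of_pos hL0]
    gcongr
  have hxA' : |-x| ≤ A / L := by rwa [abs_neg]
  -- the good points
  set Gd : Set ℝ := {t | t ∈ Ioc T (2 * T) ∧ AA ℓ r t < B ∧
    ‖riemannZeta (pt (1 / 2 + r + x) t) * Mt ℓ r t - 1‖ ^ 2 < 1 / 16 ∧
    ‖riemannZeta (pt (1 / 2 + r + -x) t) * Mt ℓ r t - 1‖ ^ 2 < 1 / 16} with hGd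
  have hGv : volume {t | t ∈ Ioc T (2 * T) ∧ t ∉ Gd} ≤
      ENNReal.ofReal (π * C1 / B * T + 16 * Cc / k * T + 16 * Cc / k * T) := by
    obtain ⟨hAi, hAm⟩ := AA_mean (T := T) (ℓ := ℓ) (r := r) (C := C1) (by linarith) hr0.le h7
      (fun ψ hψ => hcirc ψ hψ)
    have h1 := cheb (f := AA ℓ r) (T := T) (B := π * C1 / B * T) (a := B) hAi
      (fun t => intervalIntegral.integral_nonneg (by linarith) (fun ψ _ => by positivity)) hB0
      (hAm.trans (le_of_eq (by field_simp)))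
    have hCk : Cc / k * T ≤ 1 / 16 * (16 * Cc / k * T) := le_of_eq (by ring)
    have h2 := cheb (f := fun t => ‖riemannZeta (pt (1 / 2 + r + x) t) * Mt ℓ r t - 1‖ ^ 2)
      (T := T) (B := 16 * Cc / k * T) (a := 1 / 16) (cent_cont (by linarith)) (fun t => by positivity)
      (by norm_num) ((hcent x hxA).trans hCk)
    have h3 := cheb (f := fun t => ‖riemannZeta (pt (1 / 2 + r + -x) t) * Mt ℓ r t - 1‖ ^ 2)
      (T := T) (B := 16 * Cc / k * T) (a := 1 / 16) (cent_cont (by linarith)) (fun t => by positivity)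
      (by norm_num) ((hcent (-x) hxA').trans hCk)
    have hsub : {t | t ∈ Ioc T (2 * T) ∧ t ∉ Gd} ⊆ ({t | t ∈ Ioc T (2 * T) ∧ B ≤ AA ℓ r t} ∪
        {t | t ∈ Ioc T (2 * T) ∧
          1 / 16 ≤ ‖riemannZeta (pt (1 / 2 + r + x) t) * Mt ℓ r t - 1‖ ^ 2}) ∪
        {t | t ∈ Ioc T (2 * T) ∧
          1 / 16 ≤ ‖riemannZeta (pt (1 / 2 + r + -x) t) * Mt ℓ r t - 1‖ ^ 2} := by
      rintro t ⟨ht, htG⟩
      by_cases c1 : B ≤ AA ℓ r t
      · exact Or.inl (Or.inl ⟨ht, c1⟩)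
      by_cases c2 : 1 / 16 ≤ ‖riemannZeta (pt (1 / 2 + r + x) t) * Mt ℓ r t - 1‖ ^ 2
      · exact Or.inl (Or.inr ⟨ht, c2⟩)
      by_cases c3 : 1 / 16 ≤ ‖riemannZeta (pt (1 / 2 + r + -x) t) * Mt ℓ r t - 1‖ ^ 2
      · exact Or.inr ⟨ht, c3⟩
      exact absurd ⟨ht, not_le.mp c1, not_le.mp c2, not_le.mp c3⟩ htG
    refine (measure_mono hsub).trans ((measure_union_le _ _).trans
      ((add_le_add ((measure_union_le _ _).trans (add_le_add h1 h2)) h3).trans (le_of_eq ?_)))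
    rw [← ENNReal.ofReal_add (by positivity) (by positivity),
      ← ENNReal.ofReal_add (by positivity) (by positivity)]
  -- the bound for `ZZ`
  have hKb : ∀ t ∈ Gd, ∀ w : ℂ, ‖w‖ ≤ 6 * r → ‖ZZ t w * Mt ℓ r t‖ ≤ K := by
    intro t ht w hw
    obtain ⟨ht1, ht2, _, _⟩ := ht
    have h1 := ZZ_sup (t := t) (by linarith [ht1.1]) hr0 h7 (Mt ℓ r t) hw
    have h2 : 7 * r * lam t ≤ 16 * k := by
      have h3 := (abs_le.mp (lam_near (T := T) (t := t) (by linarith) ht1.1.le ht1.2)).2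
      have h4 : lam t ≤ L + 2 := by linarith
      have h5 : 7 * r * lam t ≤ 7 * r * (L + 2) := by
        apply mul_le_mul_of_nonneg_left h4 (by positivity)
      refine h5.trans ?_
      have h6 : r * L = 2 * k := by rw [hr]; field_simp
      nlinarith
    have h3 : ‖ZZ t w * Mt ℓ r t‖ ^ 2 ≤ K ^ 2 := by
      refine le_trans ?_ hK2
      refine h1.trans ?_
      have h4 : exp (7 * r * lam t) ≤ exp (16 * k) := exp_le_exp.mpr h2
      have h5 : 0 ≤ AA ℓ r t :=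
        intervalIntegral.integral_nonneg (by linarith) (fun ψ _ => by positivity)
      calc 200 * exp (7 * r * lam t) * AA ℓ r t ≤ 200 * exp (16 * k) * B := by gcongr
        _ = _ := rfl
    exact le_of_sq_le_sq h3 hK0.le
  -- conclusion
  set P : ℝ → Prop := fun t => ∀ b : ℝ, (|b - a| ≤ δ ∨ |b + a| ≤ δ) →
    0 < Zl (1 / 2 + a / L) t * Zl (1 / 2 + b / L) t with hP
  have hpb := partition_bound (T := T) (r := r) (η := η) hT0 hr0 hη Gd P
    (fun t => {y : ℝ | |y| ≤ r ∧ ‖GG t x (Mt ℓ r t) y‖ ≤ la})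
    (by
      intro t ht
      have ht100 : 100 ≤ t := by linarith [ht.1.1]
      apply hsmall r hr0 (GG t x (Mt ℓ r t)) (GG_diff ht100 hr0 h7 (by linarith) _)
      · intro z hz
        exact GG_bound (hKb t ht) (by linarith) hz
      · refine ⟨-(Complex.I * r), ?_, ?_⟩
        · rw [mem_closedBall_zero_iff, norm_neg, norm_Ix, abs_of_pos hr0]
        · apply GG_centre ht100 hr0 h7 hxr
          · have h1 := ht.2.2.1
            have h2 : (1:ℝ) / 16 = (1 / 4) ^ 2 := by norm_num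
            rw [h2] at h1
            exact le_of_sq_le_sq h1.le (by norm_num)
          · have h1 := ht.2.2.2
            have h2 : (1:ℝ) / 16 = (1 / 4) ^ 2 := by norm_num
            rw [h2, ← sub_eq_add_neg] at h1
            exact le_of_sq_le_sq h1.le (by norm_num))
    (by
      intro t ht y hy hyE
      have ht100 : 100 ≤ t := by linarith [ht.1.1]
      have hlt : la < ‖GG t x (Mt ℓ r t) y‖ := by
        by_contra hc
        exact hyE ⟨hy, not_lt.mp hc⟩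
      have hδr : δ / L ≤ r / 2 := by
        rw [hr]
        have h1 : δ ≤ 1 := hδ1
        have h2 : (2 * k / L / 2 : ℝ) = k / L := by ring
        rw [h2]
        gcongr
        linarith
      have hδK : K / r * (δ / L) ≤ la / 4 := by
        have h1 : δ ≤ la * k / (2 * K) := hδK'
        have h2 : K / r * (δ / L) = K * δ / (2 * k) := by
          rw [hr]
          field_simp
        rw [h2, div_le_div_iff₀ (by positivity) (by norm_num)]
        rw [le_div_iff₀ (by positivity)] at h1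
        nlinarith
      have hrK : 8 * r * K ≤ la / 4 := by
        rw [hr]
        have h1 : (8 * (2 * k / L) * K : ℝ) = 16 * k * K / L := by ring
        rw [h1, div_le_div_iff₀ hL0 (by norm_num)]
        rw [div_le_iff₀ hla] at hLK
        linarith
      have hsc : ∀ x' : ℝ, (|x' - x| ≤ δ / L ∨ |x' + x| ≤ δ / L) →
          0 < (ZZ t (y - Complex.I * x)).re * Zl (1 / 2 + x') (t + y) := fun x' hx' =>
        sign_const ht100 hr0 h7 (hKb t ht) hxr hy hlt hδr hδK hrK hx'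
      intro b hb
      have h1 := hsc x (Or.inl (by rw [sub_self, abs_zero]; positivity))
      have h2 := hsc (b / L) (by
        rcases hb with hb | hb
        · left
          rw [hx, ← sub_div, abs_div, abs_of_pos hL0]
          gcongr
        · right
          rw [hx, ← add_div, abs_div, abs_of_pos hL0]
          gcongr)
      have h3 := mul_pos h1 h2
      set z := (ZZ t (y - Complex.I * x)).re
      set u := Zl (1 / 2 + x) (t + y)
      set v := Zl (1 / 2 + b / L) (t + y)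
      have h4 : z * u * (z * v) = z ^ 2 * (u * v) := by ring
      rw [h4] at h3
      have h5 : z ≠ 0 := by
        intro h
        rw [h, zero_mul] at h1
        exact lt_irrefl _ h1
      exact (mul_pos_iff_of_pos_left (by positivity : 0 < z ^ 2)).mp h3)
  refine ⟨toMeasurable volume {t | t ∈ Ioc T (2 * T) ∧ ¬ P t}, measurableSet_toMeasurable _ _, ?_, ?_⟩
  · rw [measure_toMeasurable]
    refine hpb.trans ((add_le_add_left hGv _).trans ?_)
    rw [← ENNReal.ofReal_add (by positivity) (by positivity)]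
    apply ENNReal.ofReal_le_ofReal
    have hrT : r ≤ T := by linarith
    have h5 : η * (T + r) ≤ 2 * η * T := by nlinarith
    have h6 : (π * C1 / B + 32 * Cc / k + 2 * η) * T =
        π * C1 / B * T + 16 * Cc / k * T + 16 * Cc / k * T + 2 * η * T := by ring
    rw [h6]
    linarith
  · intro t ht htS
    by_contra hc
    apply htS
    apply subset_toMeasurable
    refine ⟨ht, ?_⟩
    intro hPt
    exact hc hPt


/-- the constant of `circ_expl` -/
noncomputable def Cq : ℝ := 2 * 6480 * 334084 * Cb + 2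

lemma Cq_ge : 2 ≤ Cq := by
  have := Cb_pos
  unfold Cq
  nlinarith

lemma circ_const {k : ℕ} (hk : (64:ℝ) ≤ k) :
    2 * (6480 * Cb * ((1 + 16 * √k) ^ 2 * exp (12 * √k) * √k) ^ 2) + 2 ≤ Cq * exp (5 * k) := by
  have hCb := Cb_pos
  have hs8 : (8:ℝ) ≤ √k := by
    apply Real.le_sqrt_of_sq_le
    linarith
  have hss : √(k:ℝ) * √k = k := Real.mul_self_sqrt (by linarith)
  have h1 : (1 + 16 * √(k:ℝ)) ^ 2 ≤ 289 * k := by nlinarith
  have h2 : exp (12 * √(k:ℝ)) ≤ exp (3 / 2 * k) := by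
    apply exp_le_exp.mpr
    nlinarith
  have h3 : (k:ℝ) * √k ≤ 2 * exp k := by
    have h4 : √(k:ℝ) ≤ k := by nlinarith
    have h5 := Real.quadratic_le_exp_of_nonneg (x := (k:ℝ)) (by linarith)
    nlinarith
  have h6 : (1 + 16 * √(k:ℝ)) ^ 2 * exp (12 * √k) * √k ≤ 578 * exp (5 / 2 * k) := by
    calc (1 + 16 * √(k:ℝ)) ^ 2 * exp (12 * √k) * √k ≤ 289 * k * exp (3 / 2 * k) * √k := by gcongr
      _ = 289 * (k * √k) * exp (3 / 2 * k) := by ring
      _ ≤ 289 * (2 * exp k) * exp (3 / 2 * k) := by gcongr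
      _ = 578 * (exp k * exp (3 / 2 * k)) := by ring
      _ = 578 * exp (5 / 2 * k) := by
          rw [← Real.exp_add]
          congr 2
          ring
  have h7 : ((1 + 16 * √(k:ℝ)) ^ 2 * exp (12 * √k) * √k) ^ 2 ≤ 334084 * exp (5 * k) := by
    calc ((1 + 16 * √(k:ℝ)) ^ 2 * exp (12 * √k) * √k) ^ 2 ≤ (578 * exp (5 / 2 * k)) ^ 2 := by gcongr
      _ = 334084 * (exp (5 / 2 * k) * exp (5 / 2 * k)) := by ring
      _ = 334084 * exp (5 * k) := by
          rw [← Real.exp_add]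
          congr 2
          ring
  have h8 : 1 ≤ exp (5 * (k:ℝ)) := Real.one_le_exp (by linarith)
  unfold Cq
  calc 2 * (6480 * Cb * ((1 + 16 * √(k:ℝ)) ^ 2 * exp (12 * √k) * √k) ^ 2) + 2
      ≤ 2 * (6480 * Cb * (334084 * exp (5 * k))) + 2 * exp (5 * k) := by
        have : (2:ℝ) ≤ 2 * exp (5 * (k:ℝ)) := by linarith
        gcongr
    _ = _ := by ring

/-- the constant `K e^{-11 k}` -/
noncomputable def CK : ℝ := √(200 * π * Cq)

lemma CK_ge : 1 ≤ CK := by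
  have h1 := Cq_ge
  have h2 := Real.pi_gt_three
  unfold CK
  apply Real.le_sqrt_of_sq_le
  nlinarith

lemma CK_sq : CK ^ 2 = 200 * π * Cq := by
  have h1 := Cq_ge
  have h2 := Real.pi_gt_three
  unfold CK
  rw [Real.sq_sqrt (by positivity)]

lemma exists_N : ∃ N : ℕ, 8 * CK * exp 11 + 1 ≤ 2 ^ N := by
  obtain ⟨N, hN⟩ := pow_unbounded_of_one_lt (8 * CK * exp 11 + 1) (one_lt_two (α := ℝ))
  exact ⟨N, hN.le⟩

lemma n_big {N k : ℕ} (hk : 1 ≤ k) (hN : 8 * CK * exp 11 + 1 ≤ 2 ^ N) :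
    4 * (CK * exp (11 * k)) / (1 / 2) < 2 ^ (N * k) := by
  have h1 := CK_ge
  have h2 : (1:ℝ) ≤ 8 * CK := by linarith
  have h3 : 4 * (CK * exp (11 * k)) / (1 / 2) = 8 * CK * exp 11 ^ k := by
    rw [← Real.exp_nat_mul]
    rw [mul_comm (11:ℝ) (k:ℝ)]
    ring
  rw [h3, pow_mul]
  have h4 : 8 * CK ≤ (8 * CK) ^ k := le_self_pow₀ h2 (by omega)
  calc 8 * CK * exp 11 ^ k ≤ (8 * CK) ^ k * exp 11 ^ k := by gcongr
    _ = (8 * CK * exp 11) ^ k := (mul_pow _ _ _).symm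
    _ < (2 ^ N) ^ k := by
        apply pow_lt_pow_left₀ _ (by positivity) (by omega)
        linarith

/-- the size of `64 k K / la` -/
lemma size_bound {N k : ℕ} (hk : (64:ℝ) ≤ k) :
    64 * k * (CK * exp (11 * k)) /
        (1 / 2 / (4 * (8 * (((N * k : ℕ) : ℝ) + 1) / (1 / (k:ℝ)) + 2) ^ (N * k + 1))) ≤
      exp ((19 + Real.log CK + (Real.log (8 * N + 10) + 2) * (N + 1)) * (k * Real.log k)) := by
  have hCK := CK_ge
  have hk0 : (0:ℝ) < k := by linarith
  have hlog1 : 1 ≤ Real.log k := by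
    rw [Real.le_log_iff_exp_le hk0]
    have := Real.exp_one_lt_d9
    linarith
  set lk := Real.log k with hlk
  have hkl : (k:ℝ) ≤ k * lk := by nlinarith
  set Λ := (k:ℝ) * lk with hΛ
  have hΛ1 : 1 ≤ Λ := by linarith
  have hN0 : (0:ℝ) ≤ N := Nat.cast_nonneg N
  set c2 := Real.log (8 * N + 10) + 2 with hc2
  have hc20 : 0 ≤ c2 := by
    have := Real.log_nonneg (show (1:ℝ) ≤ 8 * N + 10 by linarith)
    linarith
  have hD : 8 * (((N * k : ℕ) : ℝ) + 1) / (1 / (k:ℝ)) + 2 ≤ exp (c2 * lk) := by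
    have h1 : 8 * (((N * k : ℕ) : ℝ) + 1) / (1 / (k:ℝ)) + 2 ≤ (8 * N + 10) * k ^ 2 := by
      push_cast
      rw [div_div_eq_mul_div, div_one]
      nlinarith
    refine h1.trans ?_
    have h2 : ((8 * N + 10) * k ^ 2 : ℝ) = exp (Real.log (8 * N + 10) + 2 * lk) := by
      rw [Real.exp_add, Real.exp_log (by linarith), hlk, two_mul, Real.exp_add,
        Real.exp_log hk0]
      ring
    rw [h2]
    apply exp_le_exp.mpr
    have := Real.log_nonneg (show (1:ℝ) ≤ 8 * N + 10 by linarith)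
    rw [hc2]
    nlinarith
  have hD0 : 0 ≤ 8 * (((N * k : ℕ) : ℝ) + 1) / (1 / (k:ℝ)) + 2 := by positivity
  have hDn : (8 * (((N * k : ℕ) : ℝ) + 1) / (1 / (k:ℝ)) + 2) ^ (N * k + 1) ≤
      exp (c2 * (N + 1) * Λ) := by
    refine (pow_le_pow_left₀ hD0 hD _).trans ?_
    rw [← Real.exp_nat_mul]
    apply exp_le_exp.mpr
    push_cast
    have h3 : (N * k + 1 : ℝ) ≤ (N + 1) * k := by nlinarith
    calc (N * k + 1 : ℝ) * (c2 * lk) ≤ ((N + 1) * k) * (c2 * lk) := by gcongr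
      _ = c2 * (N + 1) * Λ := by rw [hΛ]; ring
  set Dn := (8 * (((N * k : ℕ) : ℝ) + 1) / (1 / (k:ℝ)) + 2) ^ (N * k + 1) with hDndef
  have hDn0 : 0 < Dn := by rw [hDndef]; positivity
  have h4 : 64 * k * (CK * exp (11 * k)) / (1 / 2 / (4 * Dn)) =
      512 * k * CK * exp (11 * k) * Dn := by
    field_simp
    ring
  rw [h4]
  have h5 : (512:ℝ) ≤ exp (7 * Λ) := by
    have h6 : (512:ℝ) ≤ exp 7 := by
      have h7 : exp 7 = exp 1 ^ 7 := by rw [← Real.exp_nat_mul]; norm_num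
      rw [h7]
      have h8 := Real.exp_one_gt_d9
      calc (512:ℝ) ≤ 2.7 ^ 7 := by norm_num
        _ ≤ exp 1 ^ 7 := by gcongr; linarith
    exact h6.trans (exp_le_exp.mpr (by linarith))
  have h6 : (k:ℝ) ≤ exp Λ := by
    have := Real.add_one_le_exp Λ
    linarith
  have h7 : CK ≤ exp (Real.log CK * Λ) := by
    have h8 : CK = exp (Real.log CK) := (Real.exp_log (by linarith)).symm
    nth_rewrite 1 [h8]
    apply exp_le_exp.mpr
    have := Real.log_nonneg hCK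
    nlinarith
  have h8 : exp (11 * (k:ℝ)) ≤ exp (11 * Λ) := exp_le_exp.mpr (by linarith)
  calc 512 * k * CK * exp (11 * k) * Dn
      ≤ exp (7 * Λ) * exp Λ * exp (Real.log CK * Λ) * exp (11 * Λ) * exp (c2 * (N + 1) * Λ) := by
        gcongr
    _ = exp ((19 + Real.log CK + c2 * (N + 1)) * Λ) := by
        rw [← Real.exp_add, ← Real.exp_add, ← Real.exp_add, ← Real.exp_add]
        congr 1
        ring

/-- constancy of the sign, explicit form -/
theorem sign_expl : ∃ C : ℝ, 0 < C ∧ ∀ k : ℕ, 1 ≤ k → ∀ T : ℝ,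
    exp (exp (C * k * Real.log k)) ≤ T → ∀ a : ℝ, a ^ 2 ≤ k →
    ∃ S : Set ℝ, MeasurableSet S ∧ volume S ≤ ENNReal.ofReal (C / k * T) ∧
      ∀ t ∈ Ioc T (2 * T), t ∉ S → ∀ b : ℝ,
        (|b - a| ≤ exp (-(C * k * Real.log k)) ∨ |b + a| ≤ exp (-(C * k * Real.log k))) →
        0 < Zl (1 / 2 + a / Real.log T) t * Zl (1 / 2 + b / Real.log T) t := by
  have hπ := Real.pi_pos
  have hCb := Cb_pos
  have hCq := Cq_ge
  have hCK := CK_ge
  obtain ⟨N, hN⟩ := exists_N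
  set Cc : ℝ := 6480 * Cb * (2 * exp 1) ^ 2 with hCc
  have hCc0 : 0 ≤ Cc := by positivity
  set C₀ : ℝ := 19 + Real.log CK + (Real.log (8 * N + 10) + 2) * (N + 1) with hC₀
  have hN0 : (0:ℝ) ≤ N := Nat.cast_nonneg N
  have hl1 := Real.log_nonneg hCK
  have hl2 := Real.log_nonneg (show (1:ℝ) ≤ 8 * N + 10 by linarith)
  have hC₀0 : 0 ≤ C₀ := by positivity
  refine ⟨64 + C₀ + 32 * Cc, by positivity, ?_⟩
  set C : ℝ := 64 + C₀ + 32 * Cc with hC
  have hC64 : 64 ≤ C := by linarith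
  intro k hk1 T hT a ha
  have hT0 : 0 < T := (exp_pos _).trans_le hT
  have hk1' : (1:ℝ) ≤ k := by exact_mod_cast hk1
  by_cases hk64n : k < 64
  · -- trivial range
    refine ⟨Ioc T (2 * T), measurableSet_Ioc, ?_, fun t ht htS => absurd ht htS⟩
    rw [Real.volume_Ioc]
    apply ENNReal.ofReal_le_ofReal
    have hk64' : (k:ℝ) ≤ 64 := by exact_mod_cast hk64n.le
    have h1 : 1 ≤ C / k := by
      rw [le_div_iff₀ (by linarith)]
      linarith
    nlinarith
  push Not at hk64n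
  have hk64 : (64:ℝ) ≤ k := by exact_mod_cast hk64n
  have hk0 : (0:ℝ) < k := by linarith
  have hlog1 : 1 ≤ Real.log k := by
    rw [Real.le_log_iff_exp_le hk0]
    have := Real.exp_one_lt_d9
    linarith
  have hkl : (k:ℝ) ≤ k * Real.log k := by nlinarith
  set L := Real.log T with hL
  have hLexp : exp (C * k * Real.log k) ≤ L := by
    rw [hL, Real.le_log_iff_exp_le hT0]
    exact hT
  have hCkl : C * k ≤ C * k * Real.log k := by
    have : 0 ≤ C * k := by positivity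
    nlinarith
  have hL64 : 64 * (k:ℝ) ≤ L := by
    refine le_trans ?_ hLexp
    have h1 := Real.add_one_le_exp (C * k * Real.log k)
    nlinarith
  have hT64 : exp (64 * k) ≤ T := by
    rw [← Real.le_log_iff_exp_le hT0]
    exact hL64
  have hT101 : 101 ≤ T := by
    refine le_trans ?_ hT64
    have := Real.add_one_le_exp (64 * (k:ℝ))
    linarith
  set K : ℝ := CK * exp (11 * k) with hK
  have hK0 : 0 < K := by positivity
  set B : ℝ := π * (Cq * exp (5 * k)) * k with hB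
  have hB0 : 0 < B := by positivity
  have hK2 : 200 * exp (16 * k) * B ≤ K ^ 2 := by
    have h1 : K ^ 2 = 200 * π * Cq * exp (22 * k) := by
      rw [hK, mul_pow, CK_sq, ← Real.exp_nat_mul]
      congr 2
      push_cast
      ring
    have h2 : 200 * exp (16 * k) * B = 200 * π * Cq * (exp (21 * k) * k) := by
      have h3 : exp (21 * (k:ℝ)) = exp (16 * k) * exp (5 * k) := by
        rw [← Real.exp_add]; congr 1; ring
      rw [hB, h3]
      ring
    rw [h1, h2]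
    have h4 : exp (22 * (k:ℝ)) = exp (21 * k) * exp k := by
      rw [← Real.exp_add]; congr 1; ring
    have h5 : (k:ℝ) ≤ exp k := by
      have := Real.add_one_le_exp (k:ℝ)
      linarith
    rw [h4]
    gcongr
  set la : ℝ := 1 / 2 / (4 * (8 * (((N * k : ℕ) : ℝ) + 1) / (1 / (k:ℝ)) + 2) ^ (N * k + 1)) with hla
  have hla0 : 0 < la := by positivity
  have hsz : 64 * k * K / la ≤ exp (C₀ * (k * Real.log k)) := size_bound hk64
  have hsz2 : 64 * k * K / la ≤ exp (C * k * Real.log k) := by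
    refine hsz.trans (exp_le_exp.mpr ?_)
    have h1 : C₀ ≤ C := by linarith
    have h2 : 0 ≤ (k:ℝ) * Real.log k := by linarith
    nlinarith
  have hδK : exp (-(C * k * Real.log k)) ≤ la * k / (2 * K) := by
    rw [Real.exp_neg, inv_le_comm₀ (exp_pos _) (by positivity)]
    refine le_trans ?_ hsz2
    have h1 : (la * k / (2 * K))⁻¹ = 2 / k * (K / la) := by
      field_simp
    have h2 : 64 * k * K / la = 64 * k * (K / la) := by ring
    rw [h1, h2]
    have h3 : 2 / (k:ℝ) ≤ 64 * k := by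
      rw [div_le_iff₀ hk0]
      nlinarith
    have h4 : 0 ≤ K / la := by positivity
    gcongr
  have hA : |a| ≤ √k := Real.abs_le_sqrt ha
  have hss : √(k:ℝ) * √k = k := Real.mul_self_sqrt (by linarith)
  have hs1 : 1 ≤ √(k:ℝ) := by
    apply Real.le_sqrt_of_sq_le
    linarith
  have hsk : √(k:ℝ) ≤ k := by nlinarith
  have hL0 : 0 < L := by linarith
  have hr0 : 0 ≤ 7 * (2 * (k:ℝ) / L) := by positivity
  obtain ⟨S, hS1, hS2, hS3⟩ := sign_core (k := k) hk64 (A := √k) (T := T) (Cc := Cc)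
    (C1 := Cq * exp (5 * k)) (B := B) (K := K) (la := la) (η := 1 / k)
    (δ := exp (-(C * k * Real.log k))) (a := a) hsk hB0 hK0 hK2 hla0 (by positivity)
    (fun r hr G hd hb hz => small_set_n hK0 (by norm_num) (by positivity) (n_big hk1 hN) hr hd hb hz)
    (exp_pos _) (by rw [Real.exp_le_one_iff]; nlinarith) hδK hT101 (by linarith)
    (hsz2.trans hLexp) (by positivity) hCc0
    (fun ψ hψ => by
      refine (circ_expl hk64n hT64 rfl rfl hr0 le_rfl hψ).trans ?_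
      exact mul_le_mul_of_nonneg_right (circ_const hk64) hT0.le)
    (fun x hx => cent_expl hk64n (Real.sqrt_nonneg _) (by rw [Real.sq_sqrt hk0.le]) hT64 rfl rfl hx)
    hA
  refine ⟨S, hS1, hS2.trans (ENNReal.ofReal_le_ofReal ?_), hS3⟩
  apply mul_le_mul_of_nonneg_right _ hT0.le
  have h1 : π * (Cq * exp (5 * k)) / B = 1 / k := by
    rw [hB]
    field_simp
  rw [h1]
  have h2 : 1 / (k:ℝ) + 32 * Cc / k + 2 * (1 / k) = (3 + 32 * Cc) / k := by ring
  rw [h2]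
  gcongr
  linarith

end Pool.Agent.H92.HC
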