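import Pool.Agent.H92.HD.Sup

/-!
# Mollified second moment with a complex shift of either sign
-/

namespace Pool.Agent.H92.HC

open MeasureTheory Set Real Metric Filter Topology
open Pool.Agent.H77.HZ Pool.Agent.H92.HD

lemma sup_norm_Q2_le' {ℓ v : ℝ} (hℓ : 0 < ℓ) (hv0 : 0 ≤ v) (hv : v ≤ ℓ) (δ : ℂ) :
    ‖supQ2 ℓ δ v‖ ≤ 2 * ((1 + ‖δ‖ * ℓ) ^ 2 * exp (max δ.re 0 * ℓ)) / ℓ ^ 2 := by
  set E : ℝ := exp (max δ.re 0 * ℓ) with hE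
  have hE0 : 0 < E := exp_pos _
  have h1 : ‖Complex.exp (δ * v)‖ ≤ E := by
    rw [Complex.norm_exp]
    have : (δ * (v:ℂ)).re = δ.re * v := by simp
    rw [this, hE]
    apply Real.exp_le_exp.mpr
    calc δ.re * v ≤ max δ.re 0 * v := mul_le_mul_of_nonneg_right (le_max_left _ _) hv0
      _ ≤ max δ.re 0 * ℓ := mul_le_mul_of_nonneg_left hv (le_max_right _ _)
  have h2 : ‖(1 - (v:ℂ) / ℓ)‖ ≤ 1 := by
    have e : (1 - (v:ℂ) / ℓ) = ((1 - v / ℓ : ℝ) : ℂ) := by push_cast; ring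
    rw [e, Complex.norm_real, Real.norm_eq_abs, abs_le]
    have h3 : 0 ≤ v / ℓ := by positivity
    have h4 : v / ℓ ≤ 1 := by rw [div_le_one hℓ]; exact hv
    constructor <;> linarith
  have hd := norm_nonneg δ
  have h3 : ‖(2 / (ℓ:ℂ) ^ 2 - 4 * δ / ℓ * (1 - (v:ℂ) / ℓ) + δ ^ 2 * (1 - (v:ℂ) / ℓ) ^ 2)‖ ≤
      2 / ℓ ^ 2 + 4 * ‖δ‖ / ℓ + ‖δ‖ ^ 2 := by
    refine (norm_add_le _ _).trans ?_
    refine add_le_add ((norm_sub_le _ _).trans (add_le_add ?_ ?_)) ?_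
    · rw [norm_div, norm_pow, Complex.norm_real, Real.norm_eq_abs, abs_of_pos hℓ]
      simp
    · rw [norm_mul, norm_div, norm_mul, Complex.norm_real, Real.norm_eq_abs, abs_of_pos hℓ]
      have : ‖(4:ℂ)‖ = 4 := by simp
      rw [this]
      have h5 : 0 ≤ 4 * ‖δ‖ / ℓ := by positivity
      nlinarith
    · rw [norm_mul, norm_pow, norm_pow]
      have h5 : ‖(1 - (v:ℂ) / ℓ)‖ ^ 2 ≤ 1 := pow_le_one₀ (norm_nonneg _) h2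
      have h6 : 0 ≤ ‖δ‖ ^ 2 := by positivity
      nlinarith
  have h4 : 2 / ℓ ^ 2 + 4 * ‖δ‖ / ℓ + ‖δ‖ ^ 2 ≤ 2 * (1 + ‖δ‖ * ℓ) ^ 2 / ℓ ^ 2 := by
    rw [le_div_iff₀ (by positivity)]
    have e : (2 / ℓ ^ 2 + 4 * ‖δ‖ / ℓ + ‖δ‖ ^ 2) * ℓ ^ 2 =
        2 + 4 * ‖δ‖ * ℓ + ‖δ‖ ^ 2 * ℓ ^ 2 := by
      field_simp
    rw [e]
    nlinarith [mul_nonneg hd hℓ.le, sq_nonneg (‖δ‖ * ℓ)]
  have h5 : 0 ≤ 2 / ℓ ^ 2 + 4 * ‖δ‖ / ℓ + ‖δ‖ ^ 2 := by positivity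
  unfold supQ2
  rw [norm_mul]
  calc _ ≤ (2 / ℓ ^ 2 + 4 * ‖δ‖ / ℓ + ‖δ‖ ^ 2) * E := by gcongr
    _ ≤ (2 * (1 + ‖δ‖ * ℓ) ^ 2 / ℓ ^ 2) * E := by gcongr
    _ = _ := by ring

lemma norm_zeta_DP_sq' {ℓ : ℝ} (hℓ : 0 < ℓ) (δ s : ℂ) :
    ‖riemannZeta s * DP (mc ℓ) ⌊exp ℓ⌋₊ (s - δ) - 1‖ ^ 2 ≤
      (2 * ((1 + ‖δ‖ * ℓ) ^ 2 * exp (max δ.re 0 * ℓ)) / ℓ ^ 2) ^ 2 * ℓ *
        ∫ v in (0:ℝ)..ℓ, ‖FD ⌊exp ℓ⌋₊ v s‖ ^ 2 := by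
  set c : ℝ := 2 * ((1 + ‖δ‖ * ℓ) ^ 2 * exp (max δ.re 0 * ℓ)) / ℓ ^ 2 with hc
  have hc0 : 0 ≤ c := by positivity
  have hF : Continuous fun v : ℝ => ‖FD ⌊exp ℓ⌋₊ v s‖ := (continuous_FD_v _ s).norm
  rw [zeta_DP_shift hℓ]
  have h1 : ‖∫ v in (0:ℝ)..ℓ, supQ2 ℓ δ v * FD ⌊exp ℓ⌋₊ v s‖ ≤
      ∫ v in (0:ℝ)..ℓ, c * ‖FD ⌊exp ℓ⌋₊ v s‖ := by
    refine (intervalIntegral.norm_integral_le_integral_norm hℓ.le).trans ?_
    apply intervalIntegral.integral_mono_on hℓ.le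
    · exact (((sup_continuous_Q2 ℓ δ).mul (continuous_FD_v _ s)).norm).intervalIntegrable _ _
    · exact (continuous_const.mul hF).intervalIntegrable _ _
    · intro v hv
      rw [norm_mul]
      exact mul_le_mul_of_nonneg_right (sup_norm_Q2_le' hℓ hv.1 hv.2 δ) (norm_nonneg _)
  rw [intervalIntegral.integral_const_mul] at h1
  have h2 := sup_sq_integral_le hℓ hF
  calc ‖∫ v in (0:ℝ)..ℓ, supQ2 ℓ δ v * FD ⌊exp ℓ⌋₊ v s‖ ^ 2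
      ≤ (c * ∫ v in (0:ℝ)..ℓ, ‖FD ⌊exp ℓ⌋₊ v s‖) ^ 2 := by gcongr
    _ = c ^ 2 * (∫ v in (0:ℝ)..ℓ, ‖FD ⌊exp ℓ⌋₊ v s‖) ^ 2 := by ring
    _ ≤ c ^ 2 * (ℓ * ∫ v in (0:ℝ)..ℓ, ‖FD ⌊exp ℓ⌋₊ v s‖ ^ 2) := by gcongr
    _ = _ := by ring

/-- as `sup_moment`, without the hypothesis `δ.re ≤ 0` -/
theorem sup_moment' {T ℓ σ κ : ℝ} (hT : exp 16 ≤ T) (hℓ0 : 0 < ℓ) (hℓ : ℓ ≤ Real.log T / 8)
    (hσ : 1 / 2 ≤ σ) (hσ5 : σ ≤ 5) (hκ : 2 / Real.log T ≤ κ) (hκ1 : κ ≤ 1)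
    (hκσ : κ ≤ 2 * σ - 1 + 2 / Real.log T) (δ : ℂ) :
    ∫ t in Ioc 1 T, ‖riemannZeta (pt σ t) * DP (mc ℓ) ⌊exp ℓ⌋₊ (pt σ t - δ) - 1‖ ^ 2 ≤
      2160 * Cb * T * ((1 + ‖δ‖ * ℓ) ^ 2 * exp (max δ.re 0 * ℓ) / (ℓ * κ)) ^ 2 := by
  set D : ℕ := ⌊exp ℓ⌋₊ with hD
  set c : ℝ := 2 * ((1 + ‖δ‖ * ℓ) ^ 2 * exp (max δ.re 0 * ℓ)) / ℓ ^ 2 with hc
  have hc0 : 0 ≤ c := by positivity
  have hT1 : (1:ℝ) ≤ T := by
    have := add_one_le_exp (16:ℝ)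
    linarith
  have hlogT : 0 < Real.log T := by
    have := Real.log_le_log (exp_pos _) hT
    rw [Real.log_exp] at this
    linarith
  have hκ0 : 0 < κ := lt_of_lt_of_le (by positivity) hκ
  have hCb := Cb_pos
  -- the two-variable function
  set F : ℝ → ℝ → ℝ := fun v t => ‖FD D v (σ + t * Complex.I)‖ ^ 2 with hF
  have hFc : ContinuousOn (fun x : ℝ × ℝ => F x.1 x.2) (Icc 0 ℓ ×ˢ Icc 1 T) :=
    ((continuousOn_FD2 D σ).norm.pow 2).mono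
      (prod_mono (subset_univ _) (fun t ht => ht.1))
  have hFi : Integrable (fun x : ℝ × ℝ => F x.1 x.2)
      ((volume.restrict (Ioc 0 ℓ)).prod (volume.restrict (Ioc 1 T))) := by
    rw [Measure.prod_restrict]
    have h1 : IntegrableOn (fun x : ℝ × ℝ => F x.1 x.2) (Icc 0 ℓ ×ˢ Icc 1 T)
        ((volume : Measure ℝ).prod (volume : Measure ℝ)) := by
      rw [← Measure.volume_eq_prod]
      exact hFc.integrableOn_compact (isCompact_Icc.prod isCompact_Icc)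
    exact h1.mono_set (prod_mono Ioc_subset_Icc_self Ioc_subset_Icc_self)
  have hswap : ∫ t in Ioc 1 T, ∫ v in Ioc 0 ℓ, F v t = ∫ v in Ioc 0 ℓ, ∫ t in Ioc 1 T, F v t := by
    symm
    rw [integral_integral_swap]
    exact hFi
  have hG : Integrable (fun t : ℝ => ∫ v in Ioc 0 ℓ, F v t) (volume.restrict (Ioc 1 T)) :=
    hFi.integral_prod_right
  have hH : Integrable (fun v : ℝ => ∫ t in Ioc 1 T, F v t) (volume.restrict (Ioc 0 ℓ)) :=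
    hFi.integral_prod_left
  -- the pointwise bound
  have hpt : ∀ t : ℝ, ‖riemannZeta (pt σ t) * DP (mc ℓ) D (pt σ t - δ) - 1‖ ^ 2 ≤
      c ^ 2 * ℓ * ∫ v in Ioc 0 ℓ, F v t := by
    intro t
    have h1 := norm_zeta_DP_sq' hℓ0 δ (pt σ t)
    rw [intervalIntegral.integral_of_le hℓ0.le] at h1
    exact h1
  calc ∫ t in Ioc 1 T, ‖riemannZeta (pt σ t) * DP (mc ℓ) D (pt σ t - δ) - 1‖ ^ 2
      ≤ ∫ t in Ioc 1 T, c ^ 2 * ℓ * ∫ v in Ioc 0 ℓ, F v t := by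
        apply integral_mono_of_nonneg
        · exact Filter.Eventually.of_forall fun t => sq_nonneg _
        · exact hG.const_mul _
        · exact Filter.Eventually.of_forall fun t => hpt t
    _ = c ^ 2 * ℓ * ∫ v in Ioc 0 ℓ, ∫ t in Ioc 1 T, F v t := by
        rw [integral_const_mul, hswap]
    _ ≤ c ^ 2 * ℓ * ∫ v in Ioc 0 ℓ, 540 * Cb * (T * (1 / κ) ^ 2) := by
        apply mul_le_mul_of_nonneg_left _ (by positivity)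
        apply setIntegral_mono_on hH
        · exact integrableOn_const (by simp)
        · exact measurableSet_Ioc
        · intro v hv
          have hvD : ⌊exp v⌋₊ ≤ D := Nat.floor_le_floor (exp_le_exp.mpr hv.2)
          exact FD_moment hT hv.1.le (hv.2.trans hℓ) hvD hσ hσ5 hκ hκ1 hκσ
    _ = 2160 * Cb * T * ((1 + ‖δ‖ * ℓ) ^ 2 * exp (max δ.re 0 * ℓ) / (ℓ * κ)) ^ 2 := by
        rw [setIntegral_const]
        simp only [Measure.real, Real.volume_Ioc, sub_zero, ENNReal.toReal_ofReal hℓ0.le,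
          smul_eq_mul]
        rw [hc]
        field_simp
        ring

end Pool.Agent.H92.HC
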