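import Pool.Agent.H92.HD.Mom
import Pool.Agent.H92.HC.Sup2

/-!
# Mean squares of `ζ` times a shifted mollifier, shifts of either sign
-/

namespace Pool.Agent.H92.HC

open MeasureTheory Set Real Metric Filter Topology
open Pool.Agent.H77.HZ Pool.Agent.H92.HD

lemma shift_pt (β : ℂ) (t : ℝ) : pt (1 / 2) t + β = pt (1 / 2 + β.re) (t + β.im) := by
  apply Complex.ext
  · rw [Complex.add_re, pt_re, pt_re]
  · rw [Complex.add_im, pt_im, pt_im]

lemma shift_sub (β : ℂ) (r t : ℝ) : pt (1 / 2 + r) t = pt (1 / 2 + β.re) (t + β.im) - (β - r) := by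
  rw [← shift_pt]
  unfold pt
  push_cast
  ring

/-- mean square at a point `1/2 + it + β` -/
lemma shift_moment {k : ℕ} {T r ℓ : ℝ} (P : Par k T r ℓ) {β : ℂ} (h0 : 0 ≤ β.re) (h1 : β.re ≤ 1)
    (him : |β.im| ≤ 1) {κ : ℝ} (hκ : 2 / Real.log (3 * T) ≤ κ) (hκ1 : κ ≤ 1)
    (hκσ : κ ≤ 2 * β.re + 2 / Real.log (3 * T)) :
    ∫ t in Ioc T (2 * T), ‖riemannZeta (pt (1 / 2) t + β) *
        DP (mc ℓ) ⌊exp ℓ⌋₊ (pt (1 / 2 + r) t) - 1‖ ^ 2 ≤
      6480 * Cb * T * ((1 + ‖β - r‖ * ℓ) ^ 2 * exp (max (β.re - r) 0 * ℓ) / (ℓ * κ)) ^ 2 := by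
  have hlog := P.log4
  obtain ⟨hl3, hl3'⟩ := P.log3T
  have hT0 := P.T0
  have hT101 := P.T101
  have hell := P.ell0
  have hm := sup_moment' (T := 3 * T) (ℓ := ℓ) (σ := 1 / 2 + β.re) (κ := κ)
    (by
      have : exp 16 ≤ exp 100 := exp_le_exp.mpr (by norm_num)
      linarith [P.T100])
    hell
    (by
      rw [P.hℓ]
      have h1 : Real.log T / √k ≤ Real.log T / 8 := by
        apply div_le_div_of_nonneg_left (by linarith) (by norm_num) P.sk
      linarith)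
    (by linarith) (by linarith) hκ hκ1 (by linarith) (β - r)
  have hre : (β - (r:ℂ)).re = β.re - r := by simp
  rw [hre] at hm
  set f : ℝ → ℝ := fun t => ‖riemannZeta (pt (1 / 2 + β.re) t) *
    DP (mc ℓ) ⌊exp ℓ⌋₊ (pt (1 / 2 + β.re) t - (β - r)) - 1‖ ^ 2 with hf
  have hg : ∀ t, ‖riemannZeta (pt (1 / 2) t + β) *
      DP (mc ℓ) ⌊exp ℓ⌋₊ (pt (1 / 2 + r) t) - 1‖ ^ 2 = f (t + β.im) := by
    intro t
    simp only [hf]
    rw [shift_pt, shift_sub β r t]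
  obtain ⟨hs1, hs2⟩ := abs_le.mp him
  have hfc : ContinuousOn f (Icc 1 (3 * T)) := by
    intro t ht
    have h1 : pt (1 / 2 + β.re) t ≠ 1 := by
      intro h
      have := congrArg Complex.im h
      rw [pt_im, Complex.one_im] at this
      linarith [ht.1]
    have h2 : ContinuousAt (fun t : ℝ => riemannZeta (pt (1 / 2 + β.re) t)) t :=
      ContinuousAt.comp (g := riemannZeta) (differentiableAt_riemannZeta h1).continuousAt
        (continuous_pt _).continuousAt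
    have h3 : Continuous (fun t : ℝ => DP (mc ℓ) ⌊exp ℓ⌋₊ (pt (1 / 2 + β.re) t - (β - r))) :=
      (differentiable_DP _ _).continuous.comp ((continuous_pt _).sub continuous_const)
    exact ((((h2.mul h3.continuousAt).sub continuousAt_const).norm).pow 2).continuousWithinAt
  have hfi : IntegrableOn f (Ioc 1 (3 * T)) :=
    hfc.integrableOn_Icc.mono_set Ioc_subset_Icc_self
  have h1 : ∫ t in Ioc T (2 * T), ‖riemannZeta (pt (1 / 2) t + β) *
      DP (mc ℓ) ⌊exp ℓ⌋₊ (pt (1 / 2 + r) t) - 1‖ ^ 2 =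
      ∫ t in Ioc (T + β.im) (2 * T + β.im), f t := by
    simp_rw [hg]
    rw [← intervalIntegral.integral_of_le (by linarith),
      intervalIntegral.integral_comp_add_right, intervalIntegral.integral_of_le (by linarith)]
  have h2 : ∫ t in Ioc (T + β.im) (2 * T + β.im), f t ≤ ∫ t in Ioc 1 (3 * T), f t := by
    apply setIntegral_mono_set hfi
    · exact Filter.Eventually.of_forall fun t => by
        show (0:ℝ) ≤ ‖_‖ ^ 2
        positivity
    · exact Filter.Eventually.of_forall fun x hx => ⟨by linarith [hx.1], by linarith [hx.2]⟩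
  rw [h1]
  refine h2.trans (hm.trans (le_of_eq ?_))
  ring

lemma shift_integrable {k : ℕ} {T r ℓ : ℝ} (P : Par k T r ℓ) {β : ℂ} (him : |β.im| ≤ 1) :
    IntegrableOn (fun t : ℝ => ‖riemannZeta (pt (1 / 2) t + β) *
        DP (mc ℓ) ⌊exp ℓ⌋₊ (pt (1 / 2 + r) t) - 1‖ ^ 2) (Ioc T (2 * T)) := by
  have hT101 := P.T101
  obtain ⟨hs1, hs2⟩ := abs_le.mp him
  have hc : ContinuousOn (fun t : ℝ => ‖riemannZeta (pt (1 / 2) t + β) *
        DP (mc ℓ) ⌊exp ℓ⌋₊ (pt (1 / 2 + r) t) - 1‖ ^ 2) (Icc T (2 * T)) := by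
    intro t ht
    have h1 : pt (1 / 2) t + β ≠ 1 := by
      intro h
      have := congrArg Complex.im h
      rw [Complex.add_im, pt_im, Complex.one_im] at this
      linarith [ht.1]
    have h2 : ContinuousAt (fun t : ℝ => riemannZeta (pt (1 / 2) t + β)) t :=
      ContinuousAt.comp (g := riemannZeta) (differentiableAt_riemannZeta h1).continuousAt
        ((continuous_pt _).add continuous_const).continuousAt
    have h3 : Continuous (fun t : ℝ => DP (mc ℓ) ⌊exp ℓ⌋₊ (pt (1 / 2 + r) t)) :=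
      (differentiable_DP _ _).continuous.comp (continuous_pt _)
    exact ((((h2.mul h3.continuousAt).sub continuousAt_const).norm).pow 2).continuousWithinAt
  exact hc.integrableOn_Icc.mono_set Ioc_subset_Icc_self

lemma shift_cr_re (ρ ψ : ℝ) : (cr ρ ψ).re = ρ * cos ψ := by
  unfold cr
  rw [mul_comm Complex.I, Complex.exp_mul_I, Complex.re_ofReal_mul]
  congr 1
  simp [← Complex.ofReal_cos, ← Complex.ofReal_sin]

lemma shift_cr_im (ρ ψ : ℝ) : (cr ρ ψ).im = ρ * sin ψ := by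
  unfold cr
  rw [mul_comm Complex.I, Complex.exp_mul_I, Complex.im_ofReal_mul]
  congr 1
  simp [← Complex.ofReal_cos, ← Complex.ofReal_sin]

lemma shift_cr_norm {ρ : ℝ} (h : 0 ≤ ρ) (ψ : ℝ) : ‖cr ρ ψ‖ = ρ := by
  unfold cr
  rw [norm_mul, Complex.norm_real, Real.norm_eq_abs, abs_of_nonneg h, mul_comm Complex.I,
    Complex.norm_exp_ofReal_mul_I, mul_one]

/-- on a half circle of radius at most `7 r` -/
theorem circ_moment {k : ℕ} (hk : 64 ≤ k) : ∃ C : ℝ, 0 < C ∧ ∃ T₀ : ℝ, ∀ T : ℝ, T₀ ≤ T →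
    ∀ r ℓ : ℝ, r = 2 * k / Real.log T → ℓ = Real.log T / √k →
    ∀ ρ : ℝ, 0 ≤ ρ → ρ ≤ 7 * r → ∀ ψ ∈ Icc (-(π / 2)) (π / 2),
      ∫ t in Ioc T (2 * T), ‖riemannZeta (pt (1 / 2) t + cr ρ ψ) *
        DP (mc ℓ) ⌊exp ℓ⌋₊ (pt (1 / 2 + r) t)‖ ^ 2 ≤ C * T := by
  have hCb := Cb_pos
  refine ⟨2 * (6480 * Cb * ((1 + 16 * √k) ^ 2 * exp (12 * √k) * √k) ^ 2) + 2, by positivity,
    exp (64 * k), ?_⟩
  intro T hT r ℓ hr hℓ ρ hρ0 hρ ψ hψ
  have P : Par k T r ℓ := ⟨hk, hT, hr, hℓ⟩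
  have hcos : 0 ≤ cos ψ := Real.cos_nonneg_of_mem_Icc hψ
  have hcos1 : cos ψ ≤ 1 := Real.cos_le_one ψ
  have hr0 := P.r0
  have hr32 := P.r32
  have hlog := P.log4
  obtain ⟨hl3, hl3'⟩ := P.log3T
  have hT0 := P.T0
  have hell := P.ell0
  have hsk := P.sk
  have hrell := P.rell
  have hl30 : 0 < Real.log (3 * T) := by linarith
  have hre : (cr ρ ψ).re = ρ * cos ψ := shift_cr_re ρ ψ
  have hre0 : 0 ≤ ρ * cos ψ := by positivity
  have hre1 : ρ * cos ψ ≤ ρ := by nlinarith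
  have him : |(cr ρ ψ).im| ≤ 1 := by
    rw [shift_cr_im, abs_mul, abs_of_nonneg hρ0]
    have := Real.abs_sin_le_one ψ
    have h0 := abs_nonneg (sin ψ)
    nlinarith
  have h2l : 2 / Real.log (3 * T) ≤ 1 := by
    rw [div_le_one hl30]; linarith
  have hm := shift_moment P (β := cr ρ ψ) (by rw [hre]; exact hre0) (by rw [hre]; linarith) him
    (κ := 2 / Real.log (3 * T)) le_rfl h2l (by rw [hre]; linarith)
  rw [hre] at hm
  have hδ : ‖cr ρ ψ - (r:ℂ)‖ * ℓ ≤ 16 * √k := by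
    have h1 : ‖cr ρ ψ - (r:ℂ)‖ ≤ 8 * r := by
      refine (norm_sub_le _ _).trans ?_
      rw [shift_cr_norm hρ0, Complex.norm_real, Real.norm_eq_abs, abs_of_pos hr0]
      linarith
    calc ‖cr ρ ψ - (r:ℂ)‖ * ℓ ≤ (8 * r) * ℓ := by gcongr
      _ = 8 * (r * ℓ) := by ring
      _ = _ := by rw [hrell]; ring
  have hexp : exp (max (ρ * cos ψ - r) 0 * ℓ) ≤ exp (12 * √k) := by
    apply exp_le_exp.mpr
    have h1 : max (ρ * cos ψ - r) 0 ≤ 6 * r := by
      apply max_le <;> linarith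
    calc max (ρ * cos ψ - r) 0 * ℓ ≤ (6 * r) * ℓ := by gcongr
      _ = 6 * (r * ℓ) := by ring
      _ = _ := by rw [hrell]; ring
  have hκ : (1:ℝ) / (ℓ * (2 / Real.log (3 * T))) ≤ √k := by
    rw [hℓ]
    have hsk0 : 0 < √(k:ℝ) := by linarith
    have e : (1:ℝ) / (Real.log T / √k * (2 / Real.log (3 * T))) =
        √k * (Real.log (3 * T) / (2 * Real.log T)) := by
      field_simp
    rw [e]
    have h1 : Real.log (3 * T) / (2 * Real.log T) ≤ 1 := by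
      rw [div_le_one (by linarith)]
      exact hl3'
    nlinarith
  have hb : (1 + ‖cr ρ ψ - (r:ℂ)‖ * ℓ) ^ 2 * exp (max (ρ * cos ψ - r) 0 * ℓ) /
      (ℓ * (2 / Real.log (3 * T))) ≤ (1 + 16 * √k) ^ 2 * exp (12 * √k) * √k := by
    rw [div_eq_mul_one_div]
    gcongr
  have hb0 : 0 ≤ (1 + ‖cr ρ ψ - (r:ℂ)‖ * ℓ) ^ 2 * exp (max (ρ * cos ψ - r) 0 * ℓ) /
      (ℓ * (2 / Real.log (3 * T))) := by positivity
  set M : ℝ := (1 + 16 * √k) ^ 2 * exp (12 * √k) * √k with hM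
  have hm2 : ∫ t in Ioc T (2 * T), ‖riemannZeta (pt (1 / 2) t + cr ρ ψ) *
        DP (mc ℓ) ⌊exp ℓ⌋₊ (pt (1 / 2 + r) t) - 1‖ ^ 2 ≤ 6480 * Cb * T * M ^ 2 := by
    refine hm.trans ?_
    gcongr
  have hint := shift_integrable P him
  have h3 : ∫ t in Ioc T (2 * T), ‖riemannZeta (pt (1 / 2) t + cr ρ ψ) *
        DP (mc ℓ) ⌊exp ℓ⌋₊ (pt (1 / 2 + r) t)‖ ^ 2 ≤
      ∫ t in Ioc T (2 * T), (2 * ‖riemannZeta (pt (1 / 2) t + cr ρ ψ) *
        DP (mc ℓ) ⌊exp ℓ⌋₊ (pt (1 / 2 + r) t) - 1‖ ^ 2 + 2) := by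
    apply integral_mono_of_nonneg
    · exact Filter.Eventually.of_forall fun t => sq_nonneg _
    · exact (hint.const_mul 2).add (integrableOn_const (by simp))
    · refine Filter.Eventually.of_forall fun t => ?_
      show ‖_‖ ^ 2 ≤ 2 * ‖_‖ ^ 2 + 2
      set z := riemannZeta (pt (1 / 2) t + cr ρ ψ) * DP (mc ℓ) ⌊exp ℓ⌋₊ (pt (1 / 2 + r) t)
      have h1 : ‖z‖ ≤ ‖z - 1‖ + 1 := by
        have := norm_add_le (z - 1) 1
        simpa using this
      nlinarith [norm_nonneg z, norm_nonneg (z - 1), sq_nonneg (‖z - 1‖ - 1)]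
  refine h3.trans ?_
  rw [integral_add (hint.const_mul 2) (integrableOn_const (by simp)), integral_const_mul,
    setIntegral_const]
  have hvol : (volume : Measure ℝ).real (Ioc T (2 * T)) = T := by
    rw [Measure.real, Real.volume_Ioc, ENNReal.toReal_ofReal (by linarith)]
    ring
  rw [hvol, smul_eq_mul]
  nlinarith [hm2]

/-- near the centre -/
theorem cent_moment : ∃ C : ℝ, 0 < C ∧ ∀ (k : ℕ) (A : ℝ), 64 ≤ k → 0 ≤ A → A ^ 2 ≤ k →
    ∃ T₀ : ℝ, ∀ T : ℝ, T₀ ≤ T → ∀ r ℓ : ℝ, r = 2 * k / Real.log T → ℓ = Real.log T / √k →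
    ∀ x : ℝ, |x| ≤ A / Real.log T →
      ∫ t in Ioc T (2 * T), ‖riemannZeta (pt (1 / 2 + r + x) t) *
        DP (mc ℓ) ⌊exp ℓ⌋₊ (pt (1 / 2 + r) t) - 1‖ ^ 2 ≤ C / k * T := by
  have hCb := Cb_pos
  refine ⟨6480 * Cb * (2 * exp 1) ^ 2, by positivity, ?_⟩
  intro k A hk hA hAk
  refine ⟨exp (64 * k), ?_⟩
  intro T hT r ℓ hr hℓ x hx
  have P : Par k T r ℓ := ⟨hk, hT, hr, hℓ⟩
  have hr0 := P.r0
  have hr32 := P.r32
  have hlog := P.log4
  have hlogk := P.logT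
  have hk64 := P.k64
  obtain ⟨hl3, hl3'⟩ := P.log3T
  have hT0 := P.T0
  have hell := P.ell0
  have hsk := P.sk
  have hskk := P.skk
  have hrell := P.rell
  have hrlog := P.rlog
  have hl30 : 0 < Real.log (3 * T) := by linarith
  have hl0 : 0 < Real.log T := by linarith
  have hsk0 : 0 < √(k:ℝ) := by linarith
  have hAs : A ≤ √k := Real.le_sqrt_of_sq_le hAk
  have hAk8 : A ≤ k := by nlinarith
  have hxl : |x| * Real.log T ≤ A := by
    rwa [le_div_iff₀ hl0] at hx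
  obtain ⟨hx1, hx2⟩ := abs_le.mp (le_refl |x|)
  have hx512 : |x| ≤ 1 / 64 := by
    refine hx.trans ?_
    rw [div_le_iff₀ hl0]
    linarith
  have hrx : (k:ℝ) ≤ (r + x) * Real.log T := by
    have : -(|x| * Real.log T) ≤ x * Real.log T := by nlinarith
    rw [add_mul, hrlog]
    linarith
  have hrx0 : 0 < r + x := by
    by_contra h
    push Not at h
    nlinarith
  have hκ : 2 / Real.log (3 * T) ≤ 2 * (r + x) := by
    rw [div_le_iff₀ hl30]
    nlinarith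
  have hre : (((r + x : ℝ) : ℂ)).re = r + x := Complex.ofReal_re _
  have him : |(((r + x : ℝ) : ℂ)).im| ≤ 1 := by
    rw [Complex.ofReal_im]; simp
  have h2l0 : 0 < 2 / Real.log (3 * T) := by positivity
  have hm := shift_moment P (β := ((r + x : ℝ) : ℂ)) (by rw [hre]; exact hrx0.le)
    (by rw [hre]; linarith) him
    (κ := 2 * (r + x)) hκ (by linarith) (by rw [hre]; linarith)
  rw [hre] at hm
  have hpt : ∀ t : ℝ, pt (1 / 2 + r + x) t = pt (1 / 2) t + ((r + x : ℝ) : ℂ) := by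
    intro t
    unfold pt
    push_cast
    ring
  simp_rw [hpt]
  refine hm.trans ?_
  have hxell : |x| * ℓ ≤ 1 := by
    rw [hℓ]
    calc |x| * (Real.log T / √k) = (|x| * Real.log T) / √k := by ring
      _ ≤ √k / √k := by gcongr; linarith
      _ = 1 := div_self hsk0.ne'
  have hδ : ‖(((r + x : ℝ) : ℂ)) - (r:ℂ)‖ * ℓ ≤ 1 := by
    have : (((r + x : ℝ) : ℂ)) - (r:ℂ) = ((x : ℝ) : ℂ) := by push_cast; ring
    rw [this, Complex.norm_real, Real.norm_eq_abs]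
    exact hxell
  have hexp : exp (max (r + x - r) 0 * ℓ) ≤ exp 1 := by
    apply exp_le_exp.mpr
    have h1 : max (r + x - r) 0 ≤ |x| := by
      apply max_le
      · linarith
      · exact abs_nonneg x
    calc max (r + x - r) 0 * ℓ ≤ |x| * ℓ := by gcongr
      _ ≤ 1 := hxell
  have hκb : 2 * √(k:ℝ) ≤ ℓ * (2 * (r + x)) := by
    rw [hℓ]
    have e : Real.log T / √k * (2 * (r + x)) = 2 * ((r + x) * Real.log T) / √k := by ring
    rw [e, le_div_iff₀ hsk0]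
    nlinarith
  have hb : (1 + ‖(((r + x : ℝ) : ℂ)) - (r:ℂ)‖ * ℓ) ^ 2 * exp (max (r + x - r) 0 * ℓ) /
      (ℓ * (2 * (r + x))) ≤ (1 + 1) ^ 2 * exp 1 / (2 * √k) := by
    gcongr
  have hb0 : 0 ≤ (1 + ‖(((r + x : ℝ) : ℂ)) - (r:ℂ)‖ * ℓ) ^ 2 * exp (max (r + x - r) 0 * ℓ) /
      (ℓ * (2 * (r + x))) := by positivity
  have hfin : ((1 + 1) ^ 2 * exp 1 / (2 * √(k:ℝ))) ^ 2 = (2 * exp 1) ^ 2 / k := by
    rw [div_pow, mul_pow 2 √(k:ℝ), Real.sq_sqrt (by linarith)]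
    field_simp
    ring
  calc 6480 * Cb * T * ((1 + ‖(((r + x : ℝ) : ℂ)) - (r:ℂ)‖ * ℓ) ^ 2 *
        exp (max (r + x - r) 0 * ℓ) / (ℓ * (2 * (r + x)))) ^ 2
      ≤ 6480 * Cb * T * ((1 + 1) ^ 2 * exp 1 / (2 * √(k:ℝ))) ^ 2 := by gcongr
    _ = 6480 * Cb * (2 * exp 1) ^ 2 / k * T := by
        rw [hfin]
        ring

end Pool.Agent.H92.HC
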