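import Mathlib

/-!
# The set where an analytic function is small on a real segment
-/

namespace Pool.Agent.H92.HC

open MeasureTheory Set Real Metric Filter Topology

/-- well separated points in a set of large measure -/
lemma greedy {h : ℝ} (hh : 0 < h) (n : ℕ) : ∀ S : Set ℝ, ENNReal.ofReal (2 * h * n) < volume S →
    ∃ l : List ℝ, l.length = n ∧ l.Pairwise (fun a b => h ≤ |a - b|) ∧ ∀ x ∈ l, x ∈ S := by
  induction n with
  | zero => intro S _; exact ⟨[], rfl, List.Pairwise.nil, by simp⟩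
  | succ n ih =>
    intro S hS
    have hne : S.Nonempty := by
      rw [Set.nonempty_iff_ne_empty]
      rintro rfl
      simp at hS
    obtain ⟨x, hx⟩ := hne
    have hS' : ENNReal.ofReal (2 * h * n) < volume (S \ Ioo (x - h) (x + h)) := by
      by_contra hcon
      rw [not_lt] at hcon
      have h1 : volume S ≤ volume (S \ Ioo (x - h) (x + h)) + volume (Ioo (x - h) (x + h)) := by
        calc volume S ≤ volume ((S \ Ioo (x - h) (x + h)) ∪ Ioo (x - h) (x + h)) :=
              measure_mono (by rw [Set.sdiff_union_self]; exact Set.subset_union_left)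
          _ ≤ _ := measure_union_le _ _
      have h2 : volume (Ioo (x - h) (x + h)) = ENNReal.ofReal (2 * h) := by
        rw [Real.volume_Ioo]; congr 1; ring
      have h3 : volume S ≤ ENNReal.ofReal (2 * h * n) + ENNReal.ofReal (2 * h) := by
        calc volume S ≤ _ := h1
          _ ≤ _ := by rw [h2]; gcongr
      rw [← ENNReal.ofReal_add (by positivity) (by positivity)] at h3
      have h4 : 2 * h * (n : ℝ) + 2 * h = 2 * h * ((n + 1 : ℕ) : ℝ) := by push_cast; ring
      rw [h4] at h3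
      exact absurd hS (not_lt.mpr h3)
    obtain ⟨l, hl, hp, hm⟩ := ih _ hS'
    refine ⟨x :: l, by simp [hl], List.Pairwise.cons ?_ hp, ?_⟩
    · intro y hy
      have h5 := (hm y hy).2
      rw [Set.mem_Ioo, not_and_or, not_lt, not_lt] at h5
      rcases h5 with h5 | h5
      · rw [le_abs]; left; linarith
      · rw [le_abs]; right; linarith
    · intro y hy
      rcases List.mem_cons.mp hy with rfl | hy
      · exact hx
      · exact (hm y hy).1

/-- propagation of smallness from separated points -/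
lemma chain {r h : ℝ} (hr : 0 < r) (hh : 0 < h) {z₀ : ℂ} (hz₀ : z₀ ∈ closedBall (0 : ℂ) r)
    (l : List ℝ) : ∀ (G : ℂ → ℂ) (K lam : ℝ), 0 ≤ K → 0 ≤ lam →
      DifferentiableOn ℂ G (closedBall 0 (5 * r)) →
      (∀ z ∈ closedBall (0:ℂ) (5 * r), ‖G z‖ ≤ K) →
      l.Pairwise (fun a b => h * r ≤ |a - b|) → (∀ x ∈ l, |x| ≤ r ∧ ‖G (x : ℂ)‖ ≤ lam) →
      ‖G z₀‖ ≤ K / 2 ^ l.length + lam * (4 / h + 2) ^ l.length := by
  induction l with
  | nil =>
    intro G K lam hK hlam _ hb _ _
    have h1 : ‖G z₀‖ ≤ K := hb z₀ (closedBall_subset_closedBall (by linarith) hz₀)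
    simp only [List.length_nil, pow_zero, div_one, mul_one]
    linarith
  | cons x l ih =>
    intro G K lam hK hlam hd hb hp hx
    rw [List.pairwise_cons] at hp
    obtain ⟨hx1, hp'⟩ := hp
    obtain ⟨hxr, hxG⟩ := hx x (List.mem_cons_self)
    have hxball : (x : ℂ) ∈ closedBall (0 : ℂ) r := by
      rw [mem_closedBall_zero_iff, Complex.norm_real, Real.norm_eq_abs]; exact hxr
    have hnh : closedBall (0 : ℂ) (5 * r) ∈ 𝓝 (x : ℂ) := by
      apply closedBall_mem_nhds_of_mem
      rw [mem_ball_zero_iff, Complex.norm_real, Real.norm_eq_abs]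
      linarith
    set G₁ : ℂ → ℂ := dslope G x with hG₁
    have hd1 : DifferentiableOn ℂ G₁ (closedBall 0 (5 * r)) :=
      (Complex.differentiableOn_dslope hnh).mpr hd
    have hslope : ∀ z : ℂ, z ≠ x → ‖G₁ z‖ = ‖G z - G x‖ / ‖z - x‖ := by
      intro z hz
      rw [hG₁, dslope_of_ne _ hz, slope_def_field, norm_div]
    -- bound on the boundary
    have hb1 : ∀ z ∈ closedBall (0:ℂ) (5 * r), ‖G₁ z‖ ≤ (K + lam) / (4 * r) := by
      intro z hz
      have hcl : closure (ball (0 : ℂ) (5 * r)) = closedBall 0 (5 * r) :=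
        closure_ball _ (by positivity)
      have hdc : DiffContOnCl ℂ G₁ (ball 0 (5 * r)) := hd1.diffContOnCl_ball subset_rfl
      refine Complex.norm_le_of_forall_mem_frontier_norm_le isBounded_ball hdc ?_ (by rw [hcl]; exact hz)
      intro w hw
      rw [frontier_ball _ (by positivity), mem_sphere_zero_iff_norm] at hw
      have hwx : 4 * r ≤ ‖w - x‖ := by
        have h1 : ‖w‖ - ‖(x : ℂ)‖ ≤ ‖w - x‖ := norm_sub_norm_le _ _
        rw [hw, Complex.norm_real, Real.norm_eq_abs] at h1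
        linarith
      have hne : w ≠ x := by
        rintro rfl
        rw [sub_self, norm_zero] at hwx
        linarith
      rw [hslope w hne]
      have h2 : ‖G w - G x‖ ≤ K + lam := by
        calc ‖G w - G x‖ ≤ ‖G w‖ + ‖G x‖ := norm_sub_le _ _
          _ ≤ K + lam := by
            have := hb w (by rw [mem_closedBall_zero_iff, hw])
            linarith
      gcongr
    have hx2 : ∀ y ∈ l, |y| ≤ r ∧ ‖G₁ (y : ℂ)‖ ≤ 2 * lam / (h * r) := by
      intro y hy
      obtain ⟨hyr, hyG⟩ := hx y (List.mem_cons_of_mem _ hy)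
      refine ⟨hyr, ?_⟩
      have hdist := hx1 y hy
      have hhr : 0 < h * r := by positivity
      have hnorm : ‖(y : ℂ) - x‖ = |x - y| := by
        rw [← Complex.ofReal_sub, Complex.norm_real, Real.norm_eq_abs, abs_sub_comm]
      have hne : (y : ℂ) ≠ x := by
        intro he
        rw [he, sub_self, norm_zero] at hnorm
        rw [← hnorm] at hdist
        linarith
      rw [hslope y hne, hnorm]
      have h2 : ‖G y - G x‖ ≤ 2 * lam := by
        calc ‖G y - G x‖ ≤ ‖G y‖ + ‖G x‖ := norm_sub_le _ _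
          _ ≤ 2 * lam := by linarith
      gcongr
    have hIH := ih G₁ ((K + lam) / (4 * r)) (2 * lam / (h * r)) (by positivity) (by positivity) hd1 hb1 hp' hx2
    -- back to G
    have hGz : ‖G z₀‖ ≤ lam + 2 * r * ‖G₁ z₀‖ := by
      have h1 : G z₀ = G x + (z₀ - x) * G₁ z₀ := by
        have := sub_smul_dslope G (x : ℂ) z₀
        rw [smul_eq_mul] at this
        rw [hG₁, this]; ring
      have h2 : ‖z₀ - x‖ ≤ 2 * r := by
        calc ‖z₀ - x‖ ≤ ‖z₀‖ + ‖(x : ℂ)‖ := norm_sub_le _ _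
          _ ≤ 2 * r := by
            rw [mem_closedBall_zero_iff] at hz₀ hxball
            linarith
      calc ‖G z₀‖ = ‖G x + (z₀ - x) * G₁ z₀‖ := by rw [← h1]
        _ ≤ ‖G x‖ + ‖(z₀ - x) * G₁ z₀‖ := norm_add_le _ _
        _ ≤ lam + 2 * r * ‖G₁ z₀‖ := by
          rw [norm_mul]
          have : ‖z₀ - x‖ * ‖G₁ z₀‖ ≤ 2 * r * ‖G₁ z₀‖ := by gcongr
          linarith
    set n := l.length with hn
    set D : ℝ := 4 / h + 2 with hD
    have hD1 : 1 ≤ D := by
      have : 0 < 4 / h := by positivity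
      linarith
    have hDn : 1 ≤ D ^ n := one_le_pow₀ hD1
    have h2n : (1 : ℝ) ≤ 2 ^ n := one_le_pow₀ (by norm_num)
    have hlen : (x :: l).length = n + 1 := by simp [hn]
    rw [hlen]
    calc ‖G z₀‖ ≤ lam + 2 * r * ‖G₁ z₀‖ := hGz
      _ ≤ lam + 2 * r * ((K + lam) / (4 * r) / 2 ^ n + 2 * lam / (h * r) * D ^ n) := by gcongr
      _ = K / 2 ^ (n + 1) + (lam + lam / (2 * 2 ^ n) + lam * (4 / h) * D ^ n) := by
          field_simp
          ring
      _ ≤ K / 2 ^ (n + 1) + lam * D ^ (n + 1) := by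
          have h3 : lam / (2 * 2 ^ n) ≤ lam := div_le_self hlam (by linarith)
          have h4 : lam ≤ lam * D ^ n := le_mul_of_one_le_right hlam hDn
          have h5 : lam * D ^ (n + 1) = lam * (4 / h) * D ^ n + 2 * (lam * D ^ n) := by
            rw [pow_succ, hD]; ring
          rw [h5]
          linarith

theorem small_set {K c η : ℝ} (hK : 0 < K) (hc : 0 < c) (hη : 0 < η) : ∃ lam : ℝ, 0 < lam ∧
    ∀ r : ℝ, 0 < r → ∀ G : ℂ → ℂ, DifferentiableOn ℂ G (closedBall 0 (5 * r)) →
      (∀ z ∈ closedBall (0:ℂ) (5 * r), ‖G z‖ ≤ K) → (∃ z₀ ∈ closedBall (0:ℂ) r, c ≤ ‖G z₀‖) →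
      volume {y : ℝ | |y| ≤ r ∧ ‖G y‖ ≤ lam} ≤ ENNReal.ofReal (η * r) := by
  obtain ⟨n, hn⟩ := pow_unbounded_of_one_lt (4 * K / c) (one_lt_two)
  have hn0 : 0 < n + 1 := Nat.succ_pos n
  have hKn : K / 2 ^ (n + 1) ≤ c / 4 := by
    rw [div_le_div_iff₀ (by positivity) (by norm_num)]
    rw [div_lt_iff₀ hc] at hn
    have : (2 : ℝ) ^ (n + 1) = 2 * 2 ^ n := by ring
    rw [this]
    have h2 : (0 : ℝ) < 2 ^ n := by positivity
    nlinarith
  set h : ℝ := η / (2 * (n + 1 : ℕ)) with hh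
  have hhpos : 0 < h := by positivity
  set D : ℝ := 4 / h + 2 with hD
  have hDpos : 0 < D := by positivity
  refine ⟨c / (4 * D ^ (n + 1)), by positivity, ?_⟩
  rintro r hr G hd hb ⟨z₀, hz₀, hcz⟩
  by_contra hcon
  rw [not_le] at hcon
  have hr1 : 2 * (h * r) * ((n + 1 : ℕ) : ℝ) = η * r := by
    rw [hh]; field_simp
  rw [← hr1] at hcon
  obtain ⟨l, hl, hp, hm⟩ := greedy (by positivity : 0 < h * r) (n + 1) _ hcon
  have := chain hr hhpos hz₀ l G K (c / (4 * D ^ (n + 1))) hK.le (by positivity) hd hb hp hm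
  rw [hl, ← hD] at this
  have h2 : c / (4 * D ^ (n + 1)) * D ^ (n + 1) = c / 4 := by
    field_simp
  rw [h2] at this
  linarith

end Pool.Agent.H92.HC
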