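import Pool.Agent.H92.HC.Loc
import Pool.Agent.H92.HC.Shift
import Pool.Agent.H92.HC.Small

/-!
# The sign of `Z_σ(t)` is constant near the critical line for most `t`
-/

namespace Pool.Agent.H92.HC

open MeasureTheory Set Real Metric Filter Topology
open Pool.Agent.H77.HZ Pool.Agent.H92.HD

/-- the value of the mollifier -/
noncomputable def Mt (ℓ r t : ℝ) : ℂ := DP (mc ℓ) ⌊exp ℓ⌋₊ (pt (1 / 2 + r) t)

/-- the mean square over the half circle of radius `7 r` -/
noncomputable def AA (ℓ r t : ℝ) : ℝ :=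
  ∫ ψ in (-(π / 2))..(π / 2), ‖riemannZeta (pt (1 / 2) t + cr (7 * r) ψ) * Mt ℓ r t‖ ^ 2

lemma AA_cont {ℓ r : ℝ} (hr0 : 0 ≤ r) (h7 : 7 * r ≤ 1 / 4) {p : ℝ × ℝ} (hp : 100 ≤ p.2) :
    ContinuousAt (fun p : ℝ × ℝ =>
      ‖riemannZeta (pt (1 / 2) p.2 + cr (7 * r) p.1) * Mt ℓ r p.2‖ ^ 2) p := by
  have h1 : pt (1 / 2) p.2 + cr (7 * r) p.1 ≠ 1 := by
    intro h
    rw [mom_pt] at h
    have h2 := congrArg Complex.im h
    rw [pt_im, Complex.one_im] at h2
    have h3 := Real.neg_one_le_sin p.1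
    nlinarith
  apply ContinuousAt.pow
  apply ContinuousAt.norm
  apply ContinuousAt.mul
  · apply ContinuousAt.comp (g := riemannZeta)
      (f := fun p : ℝ × ℝ => pt (1 / 2) p.2 + cr (7 * r) p.1)
      (differentiableAt_riemannZeta h1).continuousAt
    unfold pt cr
    fun_prop
  · have h3 : Continuous (fun p : ℝ × ℝ => Mt ℓ r p.2) :=
      (differentiable_DP _ _).continuous.comp ((continuous_pt _).comp continuous_snd)
    exact h3.continuousAt

lemma AA_mean {T ℓ r C : ℝ} (hT : 100 ≤ T) (hr0 : 0 ≤ r) (h7 : 7 * r ≤ 1 / 4)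
    (hC : ∀ ψ ∈ Icc (-(π / 2)) (π / 2), ∫ t in Ioc T (2 * T),
      ‖riemannZeta (pt (1 / 2) t + cr (7 * r) ψ) * Mt ℓ r t‖ ^ 2 ≤ C * T) :
    IntegrableOn (AA ℓ r) (Ioc T (2 * T)) ∧ ∫ t in Ioc T (2 * T), AA ℓ r t ≤ π * C * T := by
  have hπ := Real.pi_pos
  set F : ℝ × ℝ → ℝ := fun p => ‖riemannZeta (pt (1 / 2) p.2 + cr (7 * r) p.1) * Mt ℓ r p.2‖ ^ 2
    with hF
  have hint : Integrable F
      ((volume.restrict (Ioc (-(π / 2)) (π / 2))).prod (volume.restrict (Ioc T (2 * T)))) := by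
    rw [Measure.prod_restrict]
    have h1 : ContinuousOn F (Icc (-(π / 2)) (π / 2) ×ˢ Icc T (2 * T)) := by
      intro p hp
      exact (AA_cont hr0 h7 (hT.trans hp.2.1)).continuousWithinAt
    have h2 := h1.integrableOn_compact (μ := (volume : Measure (ℝ × ℝ)))
      (isCompact_Icc.prod isCompact_Icc)
    exact h2.mono_set (prod_mono Ioc_subset_Icc_self Ioc_subset_Icc_self)
  have hAA : ∀ t, AA ℓ r t = ∫ ψ in Ioc (-(π / 2)) (π / 2), F (ψ, t) := by
    intro t
    unfold AA
    rw [intervalIntegral.integral_of_le (by linarith)]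
  constructor
  · have h := hint.integral_prod_right
    have e : (fun y => ∫ x in Ioc (-(π / 2)) (π / 2), F (x, y)) = AA ℓ r := by
      funext t
      rw [hAA]
    rw [e] at h
    exact h
  · have h1 : ∫ t in Ioc T (2 * T), AA ℓ r t = ∫ ψ in Ioc (-(π / 2)) (π / 2),
        ∫ t in Ioc T (2 * T), F (ψ, t) := by
      rw [integral_integral_swap hint]
      congr 1
      funext t
      exact hAA t
    rw [h1]
    have h2 : ∫ ψ in Ioc (-(π / 2)) (π / 2), ∫ t in Ioc T (2 * T), F (ψ, t) ≤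
        ∫ ψ in Ioc (-(π / 2)) (π / 2), C * T := by
      apply setIntegral_mono_on hint.integral_prod_left (integrableOn_const (by simp))
        measurableSet_Ioc
      intro ψ hψ
      exact hC ψ (Ioc_subset_Icc_self hψ)
    refine h2.trans (le_of_eq ?_)
    rw [setIntegral_const, measureReal_def, Real.volume_Ioc, ENNReal.toReal_ofReal (by linarith),
      smul_eq_mul]
    ring

/-- Chebyshev -/
lemma cheb {f : ℝ → ℝ} {T B a : ℝ} (hf : IntegrableOn f (Ioc T (2 * T))) (hf0 : ∀ t, 0 ≤ f t)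
    (ha : 0 < a) (hB : ∫ t in Ioc T (2 * T), f t ≤ a * B) :
    volume {t | t ∈ Ioc T (2 * T) ∧ a ≤ f t} ≤ ENNReal.ofReal B := by
  have h1 := mul_meas_ge_le_integral_of_nonneg (μ := volume.restrict (Ioc T (2 * T)))
    (f := f) (Filter.Eventually.of_forall hf0) hf a
  have h2 : (volume.restrict (Ioc T (2 * T))).real {t | a ≤ f t} ≤ B := by
    have h3 : a * (volume.restrict (Ioc T (2 * T))).real {t | a ≤ f t} ≤ a * B := h1.trans hB
    exact le_of_mul_le_mul_left h3 ha
  have h4 : volume {t | t ∈ Ioc T (2 * T) ∧ a ≤ f t} ≤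
      (volume.restrict (Ioc T (2 * T))) {t | a ≤ f t} := by
    refine le_trans (le_of_eq ?_) (Measure.le_restrict_apply _ _)
    congr 1
    ext t
    exact and_comm
  refine h4.trans ?_
  have h5 : (volume.restrict (Ioc T (2 * T))) {t | a ≤ f t} ≠ ⊤ := by
    refine ((measure_mono (subset_univ _)).trans_lt (?_ :
      (volume.restrict (Ioc T (2 * T))) univ < ⊤)).ne
    rw [Measure.restrict_apply_univ, Real.volume_Ioc]
    exact ENNReal.ofReal_lt_top
  rw [ENNReal.le_ofReal_iff_toReal_le h5 (le_trans measureReal_nonneg h2)]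
  exact h2

/-- a covering by intervals of length `r` -/
lemma partition_bound {T r η : ℝ} (hT : 0 < T) (hr : 0 < r) (hη : 0 ≤ η) (Gd : Set ℝ)
    (P : ℝ → Prop) (E : ℝ → Set ℝ) (hE : ∀ t ∈ Gd, volume (E t) ≤ ENNReal.ofReal (η * r))
    (hP : ∀ t ∈ Gd, ∀ y : ℝ, |y| ≤ r → y ∉ E t → P (t + y)) :
    volume {t | t ∈ Ioc T (2 * T) ∧ ¬ P t} ≤
      volume {t | t ∈ Ioc T (2 * T) ∧ t ∉ Gd} + ENNReal.ofReal (η * (T + r)) := by
  classical
  set N := ⌈T / r⌉₊ with hN
  set J : ℕ → Set ℝ := fun i => Ioc (T + i * r) (T + (i + 1) * r) with hJ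
  set Bd : ℕ → Set ℝ := fun i => {t' | t' ∈ J i ∧ ¬ P t' ∧ (J i ∩ Gd).Nonempty} with hBd
  have hvol : ∀ i, volume (Bd i) ≤ ENNReal.ofReal (η * r) := by
    intro i
    by_cases h : (J i ∩ Gd).Nonempty
    · obtain ⟨t, htJ, htG⟩ := h
      have hsub : Bd i ⊆ (fun u => u + (-t)) ⁻¹' (E t) := by
        intro t' ht'
        obtain ⟨h1, h2, _⟩ := ht'
        by_contra hc
        apply h2
        have h3 : |t' + -t| ≤ r := by
          rw [abs_le]
          simp only [hJ, mem_Ioc] at h1 htJ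
          constructor <;> nlinarith [h1.1, h1.2, htJ.1, htJ.2]
        have h4 := hP t htG (t' + -t) h3 hc
        have h5 : t + (t' + -t) = t' := by ring
        rwa [h5] at h4
      refine (measure_mono hsub).trans ?_
      rw [measure_preimage_add_right]
      exact hE t htG
    · have : Bd i = ∅ := by
        rw [Set.eq_empty_iff_forall_notMem]
        rintro t' ⟨_, _, h3⟩
        exact h h3
      rw [this, measure_empty]
      exact bot_le
  have hsub : {t | t ∈ Ioc T (2 * T) ∧ ¬ P t} ⊆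
      {t | t ∈ Ioc T (2 * T) ∧ t ∉ Gd} ∪ ⋃ i ∈ Finset.range N, Bd i := by
    rintro t ⟨ht, htP⟩
    by_cases htG : t ∈ Gd
    · right
      have hx : 0 < (t - T) / r := div_pos (by linarith [ht.1]) hr
      have hi := Nat.ceil_pos.mpr hx
      obtain ⟨i, hi'⟩ := Nat.exists_eq_succ_of_ne_zero hi.ne'
      have h1 : (t - T) / r ≤ (i:ℝ) + 1 := by
        have := Nat.le_ceil ((t - T) / r)
        rw [hi'] at this
        push_cast at this
        exact this
      have h2 : (i:ℝ) < (t - T) / r := by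
        apply Nat.lt_ceil.mp
        omega
      have h3 : i < N := by
        have : ⌈(t - T) / r⌉₊ ≤ N := Nat.ceil_mono (by gcongr; linarith [ht.2])
        omega
      have hJi : t ∈ J i := by
        rw [lt_div_iff₀ hr] at h2
        rw [div_le_iff₀ hr] at h1
        exact ⟨by linarith, by linarith⟩
      rw [Set.mem_iUnion₂]
      exact ⟨i, Finset.mem_range.mpr h3, hJi, htP, ⟨t, hJi, htG⟩⟩
    · left
      exact ⟨ht, htG⟩
  refine (measure_mono hsub).trans ?_
  refine (measure_union_le _ _).trans ?_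
  gcongr
  refine (measure_biUnion_finset_le _ _).trans ?_
  refine (Finset.sum_le_sum (fun i _ => hvol i)).trans ?_
  rw [Finset.sum_const, Finset.card_range, nsmul_eq_mul]
  rw [← ENNReal.ofReal_natCast, ← ENNReal.ofReal_mul (by positivity)]
  apply ENNReal.ofReal_le_ofReal
  have h4 : (N:ℝ) ≤ T / r + 1 := (Nat.ceil_lt_add_one (by positivity)).le
  calc (N:ℝ) * (η * r) ≤ (T / r + 1) * (η * r) := by gcongr
    _ = η * (T + r) := by field_simp

/-- the integrand near the centre -/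
lemma cent_cont {T ℓ r σ : ℝ} (hT : 100 ≤ T) :
    IntegrableOn (fun t => ‖riemannZeta (pt σ t) * Mt ℓ r t - 1‖ ^ 2) (Ioc T (2 * T)) := by
  have h1 : ContinuousOn (fun t => ‖riemannZeta (pt σ t) * Mt ℓ r t - 1‖ ^ 2) (Icc T (2 * T)) := by
    intro t ht
    have h2 : pt σ t ≠ 1 := by
      intro h
      have h2 := congrArg Complex.im h
      rw [pt_im, Complex.one_im] at h2
      have := ht.1
      linarith
    apply ContinuousAt.continuousWithinAt
    apply ContinuousAt.pow
    apply ContinuousAt.norm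
    apply ContinuousAt.sub _ continuousAt_const
    apply ContinuousAt.mul
    · exact ContinuousAt.comp (g := riemannZeta) (f := fun t : ℝ => pt σ t)
        (differentiableAt_riemannZeta h2).continuousAt (continuous_pt _).continuousAt
    · exact ((differentiable_DP _ _).continuous.comp (continuous_pt _)).continuousAt
  exact (h1.integrableOn_compact isCompact_Icc).mono_set Ioc_subset_Icc_self

/-- the sign is constant in a window around the line `1/2 + a/log T`, for most `t` -/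
theorem sign_cont {A ε : ℝ} (hA : 0 ≤ A) (hε : 0 < ε) : ∃ δ : ℝ, 0 < δ ∧ ∃ T₀ : ℝ, ∀ T : ℝ, T₀ ≤ T →
    ∀ a : ℝ, |a| ≤ A → ∃ S : Set ℝ, MeasurableSet S ∧ volume S ≤ ENNReal.ofReal (ε * T) ∧
      ∀ t ∈ Ioc T (2 * T), t ∉ S → ∀ b : ℝ, (|b - a| ≤ δ ∨ |b + a| ≤ δ) →
        0 < Zl (1 / 2 + a / Real.log T) t * Zl (1 / 2 + b / Real.log T) t := by
  have hπ := Real.pi_pos
  obtain ⟨Cc, hCc, hcent⟩ := cent_moment
  obtain ⟨k, hk⟩ := exists_nat_ge (max 64 (max A (max (A ^ 2) (128 * Cc / ε))))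
  have hk64 : (64:ℝ) ≤ k := (le_max_left _ _).trans hk
  have hk1 := (le_max_right _ _).trans hk
  have hkA : A ≤ k := (le_max_left _ _).trans hk1
  have hk2 := (le_max_right _ _).trans hk1
  have hkA2 : A ^ 2 ≤ k := (le_max_left _ _).trans hk2
  have hkC : 128 * Cc / ε ≤ k := (le_max_right _ _).trans hk2
  have hk64' : 64 ≤ k := by exact_mod_cast hk64
  obtain ⟨C1, hC1, T1, hcirc⟩ := circ_moment hk64'
  obtain ⟨T2, hcent⟩ := hcent k A hk64' hA hkA2
  set B : ℝ := 8 * π * C1 / ε with hB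
  have hB0 : 0 < B := by positivity
  set K : ℝ := √(200 * exp (16 * k) * B) with hK
  have hK0 : 0 < K := by rw [hK]; positivity
  have hK2 : K ^ 2 = 200 * exp (16 * k) * B := by rw [hK, Real.sq_sqrt (by positivity)]
  obtain ⟨la, hla, hsmall⟩ := small_set (K := K) (c := 1 / 2) (η := ε / 4) hK0 (by norm_num)
    (by positivity)
  set δ : ℝ := min (la * k / (2 * K)) 1 with hδ
  have hδ0 : 0 < δ := by
    rw [hδ]
    apply lt_min (by positivity) one_pos
  refine ⟨δ, hδ0, max (max (max T1 T2) 101) (exp (max (56 * (k:ℝ)) (64 * k * K / la))), ?_⟩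
  intro T hT a ha
  have hT3 := (le_max_left _ _).trans hT
  have hT4 := (le_max_right _ _).trans hT
  have hT101 : 101 ≤ T := (le_max_right _ _).trans hT3
  have hT5 := (le_max_left _ _).trans hT3
  have hT1 : T1 ≤ T := (le_max_left _ _).trans hT5
  have hT2 : T2 ≤ T := (le_max_right _ _).trans hT5
  have hT0 : 0 < T := by linarith
  set L := Real.log T with hL
  have hLm : max (56 * (k:ℝ)) (64 * k * K / la) ≤ L := by
    rw [hL, Real.le_log_iff_exp_le hT0]
    exact hT4
  have hL56 : 56 * (k:ℝ) ≤ L := (le_max_left _ _).trans hLm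
  have hLK : 64 * k * K / la ≤ L := (le_max_right _ _).trans hLm
  have hL0 : 0 < L := by nlinarith
  set r : ℝ := 2 * k / L with hr
  set ℓ : ℝ := L / √k with hℓ
  set x : ℝ := a / L with hx
  have hr0 : 0 < r := by rw [hr]; positivity
  have h7 : 7 * r ≤ 1 / 4 := by
    rw [hr, ← mul_div_assoc, div_le_iff₀ hL0]
    linarith
  have hxr : |x| ≤ r / 2 := by
    rw [hx, hr, abs_div, abs_of_pos hL0]
    rw [div_le_iff₀ hL0]
    field_simp
    linarith
  have hxA : |x| ≤ A / L := by
    rw [hx, abs_div, abs_of_pos hL0]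
    gcongr
  have hxA' : |-x| ≤ A / L := by rwa [abs_neg]
  -- the good points
  set Gd : Set ℝ := {t | t ∈ Ioc T (2 * T) ∧ AA ℓ r t < B ∧
    ‖riemannZeta (pt (1 / 2 + r + x) t) * Mt ℓ r t - 1‖ ^ 2 < 1 / 16 ∧
    ‖riemannZeta (pt (1 / 2 + r + -x) t) * Mt ℓ r t - 1‖ ^ 2 < 1 / 16} with hGd
  have hGv : volume {t | t ∈ Ioc T (2 * T) ∧ t ∉ Gd} ≤ ENNReal.ofReal (3 * (ε * T / 8)) := by
    obtain ⟨hAi, hAm⟩ := AA_mean (T := T) (ℓ := ℓ) (r := r) (C := C1) (by linarith) hr0.le h7
      (fun ψ hψ => hcirc T hT1 r ℓ hr hℓ (7 * r) (by positivity) le_rfl ψ hψ)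
    have h1 := cheb (f := AA ℓ r) (T := T) (B := ε * T / 8) (a := B) hAi
      (fun t => intervalIntegral.integral_nonneg (by linarith) (fun ψ _ => by positivity)) hB0
      (hAm.trans (le_of_eq (by rw [hB]; field_simp)))
    have hCk : Cc / k * T ≤ 1 / 16 * (ε * T / 8) := by
      have h5 : Cc / k ≤ ε / 128 := by
        rw [div_le_iff₀ hε] at hkC
        rw [div_le_div_iff₀ (by linarith) (by norm_num)]
        linarith
      nlinarith
    have h2 := cheb (f := fun t => ‖riemannZeta (pt (1 / 2 + r + x) t) * Mt ℓ r t - 1‖ ^ 2)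
      (T := T) (B := ε * T / 8) (a := 1 / 16) (cent_cont (by linarith)) (fun t => by positivity)
      (by norm_num) ((hcent T hT2 r ℓ hr hℓ x hxA).trans hCk)
    have h3 := cheb (f := fun t => ‖riemannZeta (pt (1 / 2 + r + -x) t) * Mt ℓ r t - 1‖ ^ 2)
      (T := T) (B := ε * T / 8) (a := 1 / 16) (cent_cont (by linarith)) (fun t => by positivity)
      (by norm_num) ((hcent T hT2 r ℓ hr hℓ (-x) hxA').trans hCk)
    have hsub : {t | t ∈ Ioc T (2 * T) ∧ t ∉ Gd} ⊆ ({t | t ∈ Ioc T (2 * T) ∧ B ≤ AA ℓ r t} ∪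
        {t | t ∈ Ioc T (2 * T) ∧
          1 / 16 ≤ ‖riemannZeta (pt (1 / 2 + r + x) t) * Mt ℓ r t - 1‖ ^ 2}) ∪
        {t | t ∈ Ioc T (2 * T) ∧
          1 / 16 ≤ ‖riemannZeta (pt (1 / 2 + r + -x) t) * Mt ℓ r t - 1‖ ^ 2} := by
      rintro t ⟨ht, htG⟩
      by_cases c1 : B ≤ AA ℓ r t
      · exact Or.inl (Or.inl ⟨ht, c1⟩)
      by_cases c2 : 1 / 16 ≤ ‖riemannZeta (pt (1 / 2 + r + x) t) * Mt ℓ r t - 1‖ ^ 2
      · exact Or.inl (Or.inr ⟨ht, c2⟩)
      by_cases c3 : 1 / 16 ≤ ‖riemannZeta (pt (1 / 2 + r + -x) t) * Mt ℓ r t - 1‖ ^ 2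
      · exact Or.inr ⟨ht, c3⟩
      exact absurd ⟨ht, not_le.mp c1, not_le.mp c2, not_le.mp c3⟩ htG
    have h4 : (0:ℝ) ≤ ε * T / 8 := by positivity
    refine (measure_mono hsub).trans ((measure_union_le _ _).trans
      ((add_le_add ((measure_union_le _ _).trans (add_le_add h1 h2)) h3).trans (le_of_eq ?_)))
    rw [← ENNReal.ofReal_add h4 h4, ← ENNReal.ofReal_add (by positivity) h4]
    congr 1
    ring
  -- the bound for `ZZ`
  have hKb : ∀ t ∈ Gd, ∀ w : ℂ, ‖w‖ ≤ 6 * r → ‖ZZ t w * Mt ℓ r t‖ ≤ K := by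
    intro t ht w hw
    obtain ⟨ht1, ht2, _, _⟩ := ht
    have h1 := ZZ_sup (t := t) (by linarith [ht1.1]) hr0 h7 (Mt ℓ r t) hw
    have h2 : 7 * r * lam t ≤ 16 * k := by
      have h3 := (abs_le.mp (lam_near (T := T) (t := t) (by linarith) ht1.1.le ht1.2)).2
      have h4 : lam t ≤ L + 2 := by linarith
      have h5 : 7 * r * lam t ≤ 7 * r * (L + 2) := by
        apply mul_le_mul_of_nonneg_left h4 (by positivity)
      refine h5.trans ?_
      have h6 : r * L = 2 * k := by rw [hr]; field_simp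
      nlinarith
    have h3 : ‖ZZ t w * Mt ℓ r t‖ ^ 2 ≤ K ^ 2 := by
      rw [hK2]
      refine h1.trans ?_
      have h4 : exp (7 * r * lam t) ≤ exp (16 * k) := exp_le_exp.mpr h2
      have h5 : 0 ≤ AA ℓ r t :=
        intervalIntegral.integral_nonneg (by linarith) (fun ψ _ => by positivity)
      calc 200 * exp (7 * r * lam t) * AA ℓ r t ≤ 200 * exp (16 * k) * B := by gcongr
        _ = _ := rfl
    exact le_of_sq_le_sq h3 hK0.le
  -- conclusion
  set P : ℝ → Prop := fun t => ∀ b : ℝ, (|b - a| ≤ δ ∨ |b + a| ≤ δ) →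
    0 < Zl (1 / 2 + a / L) t * Zl (1 / 2 + b / L) t with hP
  have hpb := partition_bound (T := T) (r := r) (η := ε / 4) hT0 hr0 (by positivity) Gd P
    (fun t => {y : ℝ | |y| ≤ r ∧ ‖GG t x (Mt ℓ r t) y‖ ≤ la})
    (by
      intro t ht
      have ht100 : 100 ≤ t := by linarith [ht.1.1]
      apply hsmall r hr0 (GG t x (Mt ℓ r t)) (GG_diff ht100 hr0 h7 (by linarith) _)
      · intro z hz
        exact GG_bound (hKb t ht) (by linarith) hz
      · refine ⟨-(Complex.I * r), ?_, ?_⟩
        · rw [mem_closedBall_zero_iff, norm_neg, norm_Ix, abs_of_pos hr0]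
        · apply GG_centre ht100 hr0 h7 hxr
          · have h1 := ht.2.2.1
            have h2 : (1:ℝ) / 16 = (1 / 4) ^ 2 := by norm_num
            rw [h2] at h1
            exact le_of_sq_le_sq h1.le (by norm_num)
          · have h1 := ht.2.2.2
            have h2 : (1:ℝ) / 16 = (1 / 4) ^ 2 := by norm_num
            rw [h2, ← sub_eq_add_neg] at h1
            exact le_of_sq_le_sq h1.le (by norm_num))
    (by
      intro t ht y hy hyE
      have ht100 : 100 ≤ t := by linarith [ht.1.1]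
      have hlt : la < ‖GG t x (Mt ℓ r t) y‖ := by
        by_contra hc
        exact hyE ⟨hy, not_lt.mp hc⟩
      have hδr : δ / L ≤ r / 2 := by
        rw [hr]
        have h1 : δ ≤ 1 := min_le_right _ _
        have h2 : (2 * k / L / 2 : ℝ) = k / L := by ring
        rw [h2]
        gcongr
        linarith
      have hδK : K / r * (δ / L) ≤ la / 4 := by
        have h1 : δ ≤ la * k / (2 * K) := min_le_left _ _
        have h2 : K / r * (δ / L) = K * δ / (2 * k) := by
          rw [hr]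
          field_simp
        rw [h2, div_le_div_iff₀ (by positivity) (by norm_num)]
        rw [le_div_iff₀ (by positivity)] at h1
        nlinarith
      have hrK : 8 * r * K ≤ la / 4 := by
        rw [hr]
        have h1 : (8 * (2 * k / L) * K : ℝ) = 16 * k * K / L := by ring
        rw [h1, div_le_div_iff₀ hL0 (by norm_num)]
        rw [div_le_iff₀ hla] at hLK
        linarith
      have hsc : ∀ x' : ℝ, (|x' - x| ≤ δ / L ∨ |x' + x| ≤ δ / L) →
          0 < (ZZ t (y - Complex.I * x)).re * Zl (1 / 2 + x') (t + y) := fun x' hx' =>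
        sign_const ht100 hr0 h7 (hKb t ht) hxr hy hlt hδr hδK hrK hx'
      intro b hb
      have h1 := hsc x (Or.inl (by rw [sub_self, abs_zero]; positivity))
      have h2 := hsc (b / L) (by
        rcases hb with hb | hb
        · left
          rw [hx, ← sub_div, abs_div, abs_of_pos hL0]
          gcongr
        · right
          rw [hx, ← add_div, abs_div, abs_of_pos hL0]
          gcongr)
      have h3 := mul_pos h1 h2
      set z := (ZZ t (y - Complex.I * x)).re
      set u := Zl (1 / 2 + x) (t + y)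
      set v := Zl (1 / 2 + b / L) (t + y)
      have h4 : z * u * (z * v) = z ^ 2 * (u * v) := by ring
      rw [h4] at h3
      have h5 : z ≠ 0 := by
        intro h
        rw [h, zero_mul] at h1
        exact lt_irrefl _ h1
      exact (mul_pos_iff_of_pos_left (by positivity : 0 < z ^ 2)).mp h3)
  refine ⟨toMeasurable volume {t | t ∈ Ioc T (2 * T) ∧ ¬ P t}, measurableSet_toMeasurable _ _, ?_, ?_⟩
  · rw [measure_toMeasurable]
    refine hpb.trans ((add_le_add_left hGv _).trans ?_)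
    rw [← ENNReal.ofReal_add (by positivity) (by positivity)]
    apply ENNReal.ofReal_le_ofReal
    have hrT : r ≤ T := by linarith
    nlinarith
  · intro t ht htS
    by_contra hc
    apply htS
    apply subset_toMeasurable
    refine ⟨ht, ?_⟩
    intro hPt
    exact hc hPt

end Pool.Agent.H92.HC
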