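import Pool.Agent.H92.HC.Supb

/-!
# Constancy of the sign at a good point
-/

namespace Pool.Agent.H92.HC

open MeasureTheory Set Real Metric Filter Topology
open Pool.Agent.H77.HZ Pool.Agent.H92.HD

variable {t r K : ℝ} {M : ℂ}

lemma ZZ_lip (ht : 100 ≤ t) (hr : 0 < r) (h7 : 7 * r ≤ 1 / 4)
    (hK : ∀ w : ℂ, ‖w‖ ≤ 6 * r → ‖ZZ t w * M‖ ≤ K) {w₁ w₂ : ℂ} (h1 : ‖w₁‖ ≤ 2 * r)
    (h2 : ‖w₂‖ ≤ 2 * r) : ‖ZZ t w₁ * M - ZZ t w₂ * M‖ ≤ K / r * ‖w₁ - w₂‖ := by
  have hd : DifferentiableOn ℂ (fun w => ZZ t w * M) (ball 0 (2 / 5)) :=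
    (ZZ_diff ht).mul_const M
  have hsub : ∀ w : ℂ, ‖w‖ ≤ 6 * r → w ∈ ball (0:ℂ) (2 / 5) := by
    intro w hw
    rw [mem_ball_zero_iff]
    linarith
  have hder : ∀ w ∈ closedBall (0:ℂ) (2 * r), ‖deriv (fun w => ZZ t w * M) w‖ ≤ K / r := by
    intro w hw
    rw [mem_closedBall_zero_iff] at hw
    apply Complex.norm_deriv_le_of_forall_mem_sphere_norm_le hr
    · apply DifferentiableOn.diffContOnCl
      rw [closure_ball _ hr.ne']
      apply hd.mono
      intro z hz
      apply hsub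
      rw [mem_closedBall_iff_norm] at hz
      have := norm_le_norm_add_norm_sub w z
      rw [norm_sub_rev] at this
      linarith
    · intro z hz
      apply hK
      rw [mem_sphere_iff_norm] at hz
      have := norm_le_norm_add_norm_sub w z
      rw [norm_sub_rev] at this
      linarith
  have h3 := (convex_closedBall (0:ℂ) (2 * r)).norm_image_sub_le_of_norm_deriv_le
    (f := fun w => ZZ t w * M) (C := K / r) (fun w hw => by
      rw [mem_closedBall_zero_iff] at hw
      have := hsub w (by linarith)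
      exact (hd w this).differentiableAt (isOpen_ball.mem_nhds this)) hder
    (x := w₂) (y := w₁) (by rwa [mem_closedBall_zero_iff]) (by rwa [mem_closedBall_zero_iff])
  exact h3

/-- the symmetrised function -/
noncomputable def GG (t x : ℝ) (M : ℂ) (w : ℂ) : ℂ :=
  (ZZ t (w - Complex.I * x) + ZZ t (w + Complex.I * x)) / 2 * M

lemma norm_Ix (x : ℝ) : ‖Complex.I * (x:ℂ)‖ = |x| := by
  rw [norm_mul, Complex.norm_I, one_mul, Complex.norm_real, Real.norm_eq_abs]

lemma GG_diff (ht : 100 ≤ t) (hr : 0 < r) (h7 : 7 * r ≤ 1 / 4) {x : ℝ} (hx : |x| ≤ r) (M : ℂ) :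
    DifferentiableOn ℂ (GG t x M) (closedBall 0 (5 * r)) := by
  have h1 : ∀ w ∈ closedBall (0:ℂ) (5 * r), w - Complex.I * x ∈ ball (0:ℂ) (2 / 5) := by
    intro w hw
    rw [mem_closedBall_zero_iff] at hw
    rw [mem_ball_zero_iff]
    have := norm_sub_le w (Complex.I * x)
    rw [norm_Ix] at this
    linarith
  have h2 : ∀ w ∈ closedBall (0:ℂ) (5 * r), w + Complex.I * x ∈ ball (0:ℂ) (2 / 5) := by
    intro w hw
    rw [mem_closedBall_zero_iff] at hw
    rw [mem_ball_zero_iff]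
    have := norm_add_le w (Complex.I * x)
    rw [norm_Ix] at this
    linarith
  have h3 : DifferentiableOn ℂ (fun w => ZZ t (w - Complex.I * x)) (closedBall 0 (5 * r)) :=
    DifferentiableOn.comp (g := ZZ t) (ZZ_diff ht) (by fun_prop) h1
  have h4 : DifferentiableOn ℂ (fun w => ZZ t (w + Complex.I * x)) (closedBall 0 (5 * r)) :=
    DifferentiableOn.comp (g := ZZ t) (ZZ_diff ht) (by fun_prop) h2
  exact ((h3.add h4).div_const 2).mul_const M

lemma GG_bound (hK : ∀ w : ℂ, ‖w‖ ≤ 6 * r → ‖ZZ t w * M‖ ≤ K) {x : ℝ} (hx : |x| ≤ r)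
    {w : ℂ} (hw : w ∈ closedBall (0:ℂ) (5 * r)) : ‖GG t x M w‖ ≤ K := by
  rw [mem_closedBall_zero_iff] at hw
  have h1 : ‖w - Complex.I * x‖ ≤ 6 * r := by
    have := norm_sub_le w (Complex.I * x)
    rw [norm_Ix] at this
    linarith
  have h2 : ‖w + Complex.I * x‖ ≤ 6 * r := by
    have := norm_add_le w (Complex.I * x)
    rw [norm_Ix] at this
    linarith
  have h3 := hK _ h1
  have h4 := hK _ h2
  have e : GG t x M w = (ZZ t (w - Complex.I * x) * M + ZZ t (w + Complex.I * x) * M) / 2 := by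
    unfold GG; ring
  rw [e, norm_div, Complex.norm_ofNat, div_le_iff₀ (by norm_num)]
  refine (norm_add_le _ _).trans ?_
  linarith

/-- on the real axis -/
lemma GG_real (ht : 100 ≤ t) {x y : ℝ} (h : ‖(y:ℂ) - Complex.I * x‖ < 2 / 5) :
    GG t x M y = ((ZZ t (y - Complex.I * x)).re : ℂ) * M := by
  have h1 : (y:ℂ) + Complex.I * x = (starRingEnd ℂ) ((y:ℂ) - Complex.I * x) := by
    simp only [map_sub, map_mul, Complex.conj_ofReal, Complex.conj_I]
    ring
  unfold GG
  rw [h1, ZZ_conj ht (by rwa [mem_ball_zero_iff]), Complex.add_conj]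
  push_cast
  ring

/-- lower bound at the centre -/
lemma GG_centre (ht : 100 ≤ t) (hr : 0 < r) (h7 : 7 * r ≤ 1 / 4) {x : ℝ} (hx : |x| ≤ r / 2)
    (h1 : ‖riemannZeta (pt (1 / 2 + r + x) t) * M - 1‖ ≤ 1 / 4)
    (h2 : ‖riemannZeta (pt (1 / 2 + r - x) t) * M - 1‖ ≤ 1 / 4) :
    1 / 2 ≤ ‖GG t x M (-(Complex.I * r))‖ := by
  obtain ⟨hx1, hx2⟩ := abs_le.mp hx
  have hlam : 0 ≤ lam t := by
    have := lam_near (T := t) (by linarith) le_rfl (by linarith)
    have h1 : 2 ≤ Real.log t := by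
      rw [Real.le_log_iff_exp_le (by linarith)]
      have h2 : exp 2 = exp 1 ^ 2 := by rw [← exp_nat_mul]; norm_num
      have h3 := Real.exp_one_lt_d9
      have h4 : exp 1 ^ 2 ≤ 3 ^ 2 := by
        apply pow_le_pow_left₀ (exp_pos 1).le
        linarith
      rw [h2]
      linarith
    have := (abs_le.mp this).1
    linarith
  -- value at `-iu`
  have key : ∀ u : ℝ, 0 < u → u ≤ 2 * r → ‖riemannZeta (pt (1 / 2 + u) t) * M - 1‖ ≤ 1 / 4 →
      ‖ZZ t (-(Complex.I * u)) * M - eTh t * ((exp (u * (lam t / 2)) : ℝ) : ℂ)‖ ≤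
        1 / 2 * exp (u * (lam t / 2)) := by
    intro u hu0 hu hz
    have hb : -(Complex.I * (u:ℂ)) ∈ ball (0:ℂ) (2 / 5) := by
      rw [mem_ball_zero_iff, norm_neg, norm_Ix, abs_of_pos hu0]
      linarith
    have hS := (Sg_spec ht).2.1 _ hb
    rw [norm_neg, norm_Ix, abs_of_pos hu0] at hS
    have e1 : Complex.I * -(Complex.I * (u:ℂ)) = u := by
      have := Complex.I_mul_I
      linear_combination (-(u:ℂ)) * this
    have e2 : pt (1 / 2) t + (u:ℂ) = pt (1 / 2 + u) t := by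
      unfold pt; push_cast; ring
    have e3 : Complex.exp (Complex.I * -(Complex.I * (u:ℂ)) * (lam t / 2 : ℝ)) =
        ((exp (u * (lam t / 2)) : ℝ) : ℂ) := by
      rw [e1, Complex.ofReal_exp]
      push_cast
      rfl
    have e4 : ZZ t (-(Complex.I * u)) * M - eTh t * ((exp (u * (lam t / 2)) : ℝ) : ℂ) =
        eTh t * ((exp (u * (lam t / 2)) : ℝ) : ℂ) *
          (Sg t (-(Complex.I * u)) * (riemannZeta (pt (1 / 2 + u) t) * M) - 1) := by
      unfold ZZ
      rw [e3, e1, e2]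
      ring
    rw [e4, norm_mul, norm_mul, norm_eTh, one_mul, Complex.norm_real, Real.norm_eq_abs,
      abs_of_pos (exp_pos _), mul_comm]
    gcongr
    set S := Sg t (-(Complex.I * u)) with hSd
    set z := riemannZeta (pt (1 / 2 + u) t) * M with hzd
    have e5 : S * z - 1 = (S - 1) * z + (z - 1) := by ring
    have h5 : ‖z‖ ≤ 5 / 4 := by
      have : z = 1 + (z - 1) := by ring
      rw [this]
      refine (norm_add_le _ _).trans ?_
      rw [norm_one]
      linarith
    rw [e5]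
    refine (norm_add_le _ _).trans ?_
    rw [norm_mul]
    have h6 : ‖S - 1‖ * ‖z‖ ≤ 1 / 14 * (5 / 4) := by
      gcongr
      linarith
    linarith
  have ka := key (r + x) (by linarith) (by linarith) (by rwa [← add_assoc])
  have kb := key (r - x) (by linarith) (by linarith) (by rwa [← add_sub_assoc])
  set Ea := exp ((r + x) * (lam t / 2)) with hEa
  set Eb := exp ((r - x) * (lam t / 2)) with hEb
  have hEa1 : 1 ≤ Ea := one_le_exp (by
    have : 0 ≤ r + x := by linarith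
    positivity)
  have hEb1 : 1 ≤ Eb := one_le_exp (by
    have : 0 ≤ r - x := by linarith
    positivity)
  have e6 : GG t x M (-(Complex.I * r)) =
      (ZZ t (-(Complex.I * ((r + x : ℝ) : ℂ))) * M + ZZ t (-(Complex.I * ((r - x : ℝ) : ℂ))) * M) / 2 := by
    unfold GG
    have e7 : -(Complex.I * (r:ℂ)) - Complex.I * x = -(Complex.I * ((r + x : ℝ) : ℂ)) := by
      push_cast; ring
    have e8 : -(Complex.I * (r:ℂ)) + Complex.I * x = -(Complex.I * ((r - x : ℝ) : ℂ)) := by
      push_cast; ring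
    rw [e7, e8]
    ring
  set Pa := ZZ t (-(Complex.I * ((r + x : ℝ) : ℂ))) * M with hPa
  set Pb := ZZ t (-(Complex.I * ((r - x : ℝ) : ℂ))) * M with hPb
  rw [e6, norm_div, Complex.norm_ofNat, le_div_iff₀ (by norm_num)]
  have h8 : ‖eTh t * ((Ea + Eb : ℝ) : ℂ)‖ = Ea + Eb := by
    rw [norm_mul, norm_eTh, one_mul, Complex.norm_real, Real.norm_eq_abs, abs_of_pos (by linarith)]
  have h9 : eTh t * ((Ea + Eb : ℝ) : ℂ) =
      (Pa + Pb) - ((Pa - eTh t * (Ea : ℂ)) + (Pb - eTh t * (Eb : ℂ))) := by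
    push_cast
    ring
  have h10 : Ea + Eb ≤ ‖Pa + Pb‖ + (1 / 2 * Ea + 1 / 2 * Eb) := by
    rw [← h8, h9]
    refine (norm_sub_le _ _).trans ?_
    gcongr
    refine (norm_add_le _ _).trans ?_
    gcongr
  linarith

/-- **The sign at a good point.** -/
theorem sign_const (ht : 100 ≤ t) (hr : 0 < r) (h7 : 7 * r ≤ 1 / 4)
    (hK : ∀ w : ℂ, ‖w‖ ≤ 6 * r → ‖ZZ t w * M‖ ≤ K) {x y la δ : ℝ} (hx : |x| ≤ r / 2)
    (hy : |y| ≤ r) (hla : la < ‖GG t x M y‖) (hδr : δ ≤ r / 2) (hδ : K / r * δ ≤ la / 4)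
    (hrK : 8 * r * K ≤ la / 4) {x' : ℝ} (hx' : |x' - x| ≤ δ ∨ |x' + x| ≤ δ) :
    0 < (ZZ t (y - Complex.I * x)).re * Zl (1 / 2 + x') (t + y) := by
  have hK0 : 0 ≤ K := (norm_nonneg _).trans (hK 0 (by rw [norm_zero]; linarith))
  have hx'r : |x'| ≤ r := by
    rcases hx' with h | h
    · have h1 : x' = (x' - x) + x := by ring
      rw [h1]
      refine (abs_add_le _ _).trans ?_
      linarith
    · have h1 : x' = (x' + x) - x := by ring
      rw [h1]
      refine (abs_sub _ _).trans ?_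
      linarith
  have hn : ∀ u : ℝ, |u| ≤ r → ‖(y:ℂ) - Complex.I * u‖ ≤ 2 * r := by
    intro u hu
    refine (norm_sub_le _ _).trans ?_
    rw [norm_Ix, Complex.norm_real, Real.norm_eq_abs]
    linarith
  have hxr : |x| ≤ r := by linarith
  set g := (ZZ t (y - Complex.I * x)).re with hg
  have h1 : la < |g| * ‖M‖ := by
    rw [GG_real ht (by have := hn x hxr; linarith), norm_mul, Complex.norm_real,
      Real.norm_eq_abs] at hla
    exact hla
  -- comparison of the real parts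
  have h2 : |(ZZ t (y - Complex.I * x')).re - g| * ‖M‖ ≤ la / 4 := by
    have hδ0 : 0 ≤ K / r := by positivity
    rcases hx' with h | h
    · have h3 := ZZ_lip ht hr h7 hK (hn x' hx'r) (hn x hxr)
      have h4 : ‖((y:ℂ) - Complex.I * x') - ((y:ℂ) - Complex.I * x)‖ ≤ δ := by
        have : ((y:ℂ) - Complex.I * x') - ((y:ℂ) - Complex.I * x) =
            Complex.I * ((x - x' : ℝ) : ℂ) := by push_cast; ring
        rw [this, norm_Ix, abs_sub_comm]
        exact h
      rw [← sub_mul, norm_mul] at h3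
      calc |(ZZ t (y - Complex.I * x')).re - g| * ‖M‖
          ≤ ‖ZZ t (y - Complex.I * x') - ZZ t (y - Complex.I * x)‖ * ‖M‖ := by
            gcongr
            rw [hg, ← Complex.sub_re]
            exact Complex.abs_re_le_norm _
        _ ≤ K / r * ‖((y:ℂ) - Complex.I * x') - ((y:ℂ) - Complex.I * x)‖ := h3
        _ ≤ K / r * δ := by gcongr
        _ ≤ _ := hδ
    · have hx'n : |(-x')| ≤ r := by rwa [abs_neg]
      have h3 := ZZ_lip ht hr h7 hK (hn (-x') hx'n) (hn x hxr)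
      have h4 : ‖((y:ℂ) - Complex.I * ((-x' : ℝ) : ℂ)) - ((y:ℂ) - Complex.I * x)‖ ≤ δ := by
        have : ((y:ℂ) - Complex.I * ((-x' : ℝ) : ℂ)) - ((y:ℂ) - Complex.I * x) =
            Complex.I * ((x' + x : ℝ) : ℂ) := by push_cast; ring
        rw [this, norm_Ix]
        exact h
      have h5 : (ZZ t (y - Complex.I * ((-x' : ℝ) : ℂ))).re = (ZZ t (y - Complex.I * x')).re := by
        have h6 : (y:ℂ) - Complex.I * ((-x' : ℝ) : ℂ) =
            (starRingEnd ℂ) ((y:ℂ) - Complex.I * x') := by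
          simp only [map_sub, map_mul, Complex.conj_ofReal, Complex.conj_I]
          push_cast
          ring
        rw [h6, ZZ_conj ht (by
          rw [mem_ball_zero_iff]
          have := hn x' hx'r
          linarith), Complex.conj_re]
      rw [← sub_mul, norm_mul] at h3
      calc |(ZZ t (y - Complex.I * x')).re - g| * ‖M‖
          ≤ ‖ZZ t (y - Complex.I * ((-x' : ℝ) : ℂ)) - ZZ t (y - Complex.I * x)‖ * ‖M‖ := by
            gcongr
            rw [hg, ← h5, ← Complex.sub_re]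
            exact Complex.abs_re_le_norm _
        _ ≤ K / r * ‖((y:ℂ) - Complex.I * ((-x' : ℝ) : ℂ)) - ((y:ℂ) - Complex.I * x)‖ := h3
        _ ≤ K / r * δ := by gcongr
        _ ≤ _ := hδ
  have h3 := Zl_near ht (x := x') (y := y) (w := (y:ℂ) - Complex.I * x') rfl (by
    have := hn x' hx'r
    linarith)
  set w := (y:ℂ) - Complex.I * x' with hw
  have h4 : 4 * ‖w‖ * ‖ZZ t w‖ * ‖M‖ ≤ la / 4 := by
    have h5 := hK w (by have := hn x' hx'r; linarith)
    rw [norm_mul] at h5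
    calc 4 * ‖w‖ * ‖ZZ t w‖ * ‖M‖ = 4 * ‖w‖ * (‖ZZ t w‖ * ‖M‖) := by ring
      _ ≤ 4 * (2 * r) * K := by
          gcongr
          exact hn x' hx'r
      _ = 8 * r * K := by ring
      _ ≤ _ := hrK
  set E := exp (x' * (lam t / 2)) with hE
  have hE0 : 0 < E := exp_pos _
  set Z := Zl (1 / 2 + x') (t + y) with hZ
  have h5 : |E * Z - g| * ‖M‖ ≤ la / 2 := by
    have h6 : E * Z - g = (E * Z - (ZZ t w).re) + ((ZZ t w).re - g) := by ring
    rw [h6]
    calc |(E * Z - (ZZ t w).re) + ((ZZ t w).re - g)| * ‖M‖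
        ≤ (|E * Z - (ZZ t w).re| + |(ZZ t w).re - g|) * ‖M‖ := by
          gcongr
          exact abs_add_le _ _
      _ = |E * Z - (ZZ t w).re| * ‖M‖ + |(ZZ t w).re - g| * ‖M‖ := by ring
      _ ≤ la / 4 + la / 4 := by
          gcongr
          exact (mul_le_mul_of_nonneg_right h3 (norm_nonneg _)).trans h4
      _ = la / 2 := by ring
  have hla0 : 0 ≤ la := by
    have : 0 ≤ 8 * r * K := by positivity
    linarith
  have hM0 : 0 < ‖M‖ := by
    by_contra h
    push Not at h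
    have h7 : ‖M‖ = 0 := le_antisymm h (norm_nonneg _)
    rw [h7, mul_zero] at h1
    linarith
  have h6 : |E * Z - g| < |g| := by
    have h7 : |E * Z - g| * ‖M‖ < |g| * ‖M‖ := by linarith
    exact lt_of_mul_lt_mul_right h7 hM0.le
  rcases lt_trichotomy g 0 with h | h | h
  · rw [abs_of_neg h] at h6
    have h7 := (abs_lt.mp h6).2
    have h8 : E * Z < 0 := by linarith
    have h9 : Z < 0 := by
      by_contra h10
      push Not at h10
      have := mul_nonneg hE0.le h10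
      linarith
    exact mul_pos_of_neg_of_neg h h9
  · rw [h, abs_zero] at h6
    exact absurd h6 (not_lt.mpr (abs_nonneg _))
  · rw [abs_of_pos h] at h6
    have h7 := (abs_lt.mp h6).1
    have h8 : 0 < E * Z := by linarith
    exact mul_pos h ((mul_pos_iff_of_pos_left hE0).mp h8)

end Pool.Agent.H92.HC
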