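import Pool.Agent.H92.HC.Cont
import Pool.Agent.H92.HD.Poi

/-!
# Bound for `ZZ` in a disc by the mean square over a half circle
-/

namespace Pool.Agent.H92.HC

open MeasureTheory Set Real Metric Filter Topology
open Pool.Agent.H77.HZ Pool.Agent.H92.HD

/-- Cauchy's formula, `L¹` form -/
lemma sup_circle {f : ℂ → ℂ} {ρ r : ℝ} (hr : 0 < r) (h7 : 7 * r < ρ)
    (hf : DifferentiableOn ℂ f (ball 0 ρ)) {w : ℂ} (hw : ‖w‖ ≤ 6 * r) :
    ‖f w‖ ≤ 7 / (2 * π) * ∫ φ in (0:ℝ)..(2 * π), ‖f (circleMap 0 (7 * r) φ)‖ := by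
  have hπ := Real.pi_pos
  have hcl : closedBall (0:ℂ) (7 * r) ⊆ ball 0 ρ := closedBall_subset_ball h7
  have hd : DiffContOnCl ℂ f (ball 0 (7 * r)) := by
    apply DifferentiableOn.diffContOnCl
    rw [closure_ball _ (by positivity)]
    exact hf.mono hcl
  have hwb : w ∈ ball (0:ℂ) (7 * r) := by rw [mem_ball_zero_iff]; linarith
  have h1 := hd.circleIntegral_sub_inv_smul hwb
  have hfc : Continuous fun φ : ℝ => ‖f (circleMap 0 (7 * r) φ)‖ := by
    apply Continuous.norm
    apply (hf.mono hcl).continuousOn.comp_continuous (continuous_circleMap 0 (7 * r))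
    intro φ
    exact circleMap_mem_closedBall 0 (by positivity) φ
  have h2 : ‖∮ z in C(0, 7 * r), (z - w)⁻¹ • f z‖ ≤
      ∫ φ in (0:ℝ)..(2 * π), 7 * ‖f (circleMap 0 (7 * r) φ)‖ := by
    unfold circleIntegral
    apply intervalIntegral.norm_integral_le_of_norm_le (by positivity)
    · refine Filter.Eventually.of_forall fun φ _ => ?_
      rw [norm_smul, norm_smul, norm_inv, deriv_circleMap, norm_mul, Complex.norm_I, mul_one,
        norm_circleMap_zero, abs_of_pos (by positivity : 0 < 7 * r)]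
      have h3 : r ≤ ‖circleMap 0 (7 * r) φ - w‖ := by
        have h4 := norm_sub_norm_le (circleMap 0 (7 * r) φ) w
        rw [norm_circleMap_zero, abs_of_pos (by positivity : 0 < 7 * r)] at h4
        linarith
      have h5 : ‖circleMap 0 (7 * r) φ - w‖⁻¹ ≤ r⁻¹ := by gcongr
      calc 7 * r * (‖circleMap 0 (7 * r) φ - w‖⁻¹ * ‖f (circleMap 0 (7 * r) φ)‖)
          ≤ 7 * r * (r⁻¹ * ‖f (circleMap 0 (7 * r) φ)‖) := by gcongr
        _ = 7 * ‖f (circleMap 0 (7 * r) φ)‖ := by field_simp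
    · exact (hfc.const_mul 7).intervalIntegrable _ _
  rw [h1, norm_smul, intervalIntegral.integral_const_mul] at h2
  have h6 : ‖(2 * π * Complex.I : ℂ)‖ = 2 * π := by
    rw [norm_mul, Complex.norm_I, mul_one]
    rw [show (2 * (π:ℂ)) = ((2 * π : ℝ) : ℂ) by push_cast; ring, Complex.norm_real,
      Real.norm_eq_abs, abs_of_pos (by positivity)]
  rw [h6] at h2
  rw [div_mul_eq_mul_div, le_div_iff₀ (by positivity)]
  linarith

lemma zc_cont {t R : ℝ} (ht : 100 ≤ t) (hR0 : 0 ≤ R) (hR : R ≤ 1 / 4) :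
    Continuous fun ψ : ℝ => riemannZeta (pt (1 / 2) t + cr R ψ) := by
  rw [continuous_iff_continuousAt]
  intro ψ
  have h5 : pt (1 / 2) t + cr R ψ ≠ 1 := by
    intro h
    rw [mom_pt] at h
    have h6 := congrArg Complex.im h
    rw [pt_im, Complex.one_im] at h6
    have h7 := Real.neg_one_le_sin ψ
    nlinarith
  refine ContinuousAt.comp (g := riemannZeta) (f := fun ψ : ℝ => pt (1 / 2) t + cr R ψ)
    (differentiableAt_riemannZeta h5).continuousAt ?_
  unfold cr
  fun_prop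

/-- the half circle -/
lemma ZZ_circle {t r : ℝ} (ht : 100 ≤ t) (hr : 0 < r) (h7 : 7 * r ≤ 1 / 4) :
    ∫ φ in (0:ℝ)..(2 * π), ‖ZZ t (circleMap 0 (7 * r) φ)‖ ≤
      4 * exp (7 * r * (lam t / 2)) *
        ∫ ψ in (-(π / 2))..(π / 2), ‖riemannZeta (pt (1 / 2) t + cr (7 * r) ψ)‖ := by
  have hπ := Real.pi_pos
  have hmem : ∀ φ, circleMap 0 (7 * r) φ ∈ ball (0:ℂ) (2 / 5) := by
    intro φ
    rw [mem_ball_zero_iff, norm_circleMap_zero, abs_of_pos (by positivity)]
    linarith
  set g : ℝ → ℝ := fun φ => ‖ZZ t (circleMap 0 (7 * r) φ)‖ with hg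
  have hgc : Continuous g := by
    apply Continuous.norm
    exact (ZZ_diff ht).continuousOn.comp_continuous (continuous_circleMap 0 (7 * r)) hmem
  have hgi : ∀ a b, IntervalIntegrable g volume a b := fun a b => hgc.intervalIntegrable a b
  have hper : Function.Periodic g (2 * π) := by
    intro φ
    simp only [hg]
    rw [periodic_circleMap]
  have hneg : ∀ φ, g (-φ) = g φ := by
    intro φ
    have e : circleMap 0 (7 * r) (-φ) = (starRingEnd ℂ) (circleMap 0 (7 * r) φ) := by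
      unfold circleMap
      simp only [zero_add, map_mul, Complex.conj_ofReal, ← Complex.exp_conj, Complex.conj_I]
      congr 2
      push_cast
      ring
    simp only [hg]
    rw [e, ZZ_conj ht (hmem φ), Complex.norm_conj]
  have h1 : ∫ φ in (0:ℝ)..(2 * π), g φ = ∫ φ in (-π)..π, g φ := by
    have := hper.intervalIntegral_add_eq 0 (-π)
    rw [zero_add] at this
    rw [this]
    congr 1
    ring
  have h2 : ∫ φ in (0:ℝ)..π, g φ = ∫ φ in (-π)..0, g φ := by
    have := intervalIntegral.integral_comp_neg (a := 0) (b := π) g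
    simp only [hneg, neg_zero] at this
    exact this
  have h3 : ∫ φ in (-π)..0, g φ = ∫ ψ in (-(π / 2))..(π / 2), g (ψ - π / 2) := by
    rw [intervalIntegral.integral_comp_sub_right]
    congr 1 <;> ring
  have h4 : ∫ φ in (0:ℝ)..(2 * π), g φ = 2 * ∫ ψ in (-(π / 2))..(π / 2), g (ψ - π / 2) := by
    rw [h1, ← intervalIntegral.integral_add_adjacent_intervals (hgi (-π) 0) (hgi 0 π), h2, h3]
    ring
  rw [h4]
  have hzc : Continuous fun ψ : ℝ => ‖riemannZeta (pt (1 / 2) t + cr (7 * r) ψ)‖ :=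
    (zc_cont ht (by positivity : 0 ≤ 7 * r) h7).norm
  have h5 : ∫ ψ in (-(π / 2))..(π / 2), g (ψ - π / 2) ≤
      ∫ ψ in (-(π / 2))..(π / 2), 2 * exp (7 * r * (lam t / 2)) *
        ‖riemannZeta (pt (1 / 2) t + cr (7 * r) ψ)‖ := by
    apply intervalIntegral.integral_mono_on (by linarith)
    · exact (hgc.comp (continuous_id.sub continuous_const)).intervalIntegrable _ _
    · exact (hzc.const_mul _).intervalIntegrable _ _
    · intro ψ _
      have h6 := ZZ_norm_le ht (hmem (ψ - π / 2))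
      rw [norm_circleMap_zero, abs_of_pos (by positivity : 0 < 7 * r)] at h6
      have h8 : Complex.I * circleMap 0 (7 * r) (ψ - π / 2) = cr (7 * r) ψ := by
        unfold circleMap cr
        rw [zero_add]
        have h9 : Complex.exp (((ψ - π / 2 : ℝ) : ℂ) * Complex.I) =
            Complex.exp (Complex.I * ψ) * (-Complex.I) := by
          rw [← Complex.exp_neg_pi_div_two_mul_I, ← Complex.exp_add]
          congr 1
          push_cast
          ring
        rw [h9]
        have := Complex.I_mul_I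
        linear_combination (-(((7 * r : ℝ)) : ℂ) * Complex.exp (Complex.I * ψ)) * this
      rw [h8] at h6
      exact h6
  rw [intervalIntegral.integral_const_mul] at h5
  linarith

/-- **Sup bound.** -/
lemma ZZ_sup {t r : ℝ} (ht : 100 ≤ t) (hr : 0 < r) (h7 : 7 * r ≤ 1 / 4) (M : ℂ) {w : ℂ}
    (hw : ‖w‖ ≤ 6 * r) :
    ‖ZZ t w * M‖ ^ 2 ≤ 200 * exp (7 * r * lam t) *
      ∫ ψ in (-(π / 2))..(π / 2), ‖riemannZeta (pt (1 / 2) t + cr (7 * r) ψ) * M‖ ^ 2 := by
  have hπ := Real.pi_pos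
  have hπ3 := Real.pi_gt_three
  have h1 := sup_circle hr (by linarith : 7 * r < 2 / 5) (ZZ_diff ht) hw
  have h2 := ZZ_circle ht hr h7
  set J := ∫ ψ in (-(π / 2))..(π / 2), ‖riemannZeta (pt (1 / 2) t + cr (7 * r) ψ)‖ with hJ
  have hzc : Continuous fun ψ : ℝ => ‖riemannZeta (pt (1 / 2) t + cr (7 * r) ψ)‖ :=
    (zc_cont ht (by positivity : 0 ≤ 7 * r) h7).norm
  have hJ0 : 0 ≤ J := intervalIntegral.integral_nonneg (by linarith) fun ψ _ => norm_nonneg _
  have hcs := poi_cs (a := -(π / 2)) (b := π / 2) (by linarith) (w := fun _ => (1:ℝ))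
    (g := fun ψ => ‖riemannZeta (pt (1 / 2) t + cr (7 * r) ψ)‖) continuous_const hzc.continuousOn
    (fun _ => zero_le_one) (by
      rw [intervalIntegral.integral_const, smul_eq_mul]
      nlinarith)
  simp only [one_mul] at hcs
  rw [intervalIntegral.integral_const, smul_eq_mul, mul_one] at hcs
  have hcs' : J ^ 2 ≤ π * ∫ ψ in (-(π / 2))..(π / 2),
      ‖riemannZeta (pt (1 / 2) t + cr (7 * r) ψ)‖ ^ 2 := by
    have e : π / 2 - -(π / 2) = π := by ring
    rw [e] at hcs
    exact hcs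
  have h3 : ‖ZZ t w‖ ≤ 14 / π * exp (7 * r * (lam t / 2)) * J := by
    refine h1.trans ?_
    calc 7 / (2 * π) * ∫ φ in (0:ℝ)..(2 * π), ‖ZZ t (circleMap 0 (7 * r) φ)‖
        ≤ 7 / (2 * π) * (4 * exp (7 * r * (lam t / 2)) * J) := by gcongr
      _ = _ := by
          field_simp
          ring
  have h4 : exp (7 * r * (lam t / 2)) ^ 2 = exp (7 * r * lam t) := by
    rw [← exp_nat_mul]
    congr 1
    push_cast
    ring
  have h5 : ‖ZZ t w‖ ^ 2 ≤ 200 * exp (7 * r * lam t) *
      ∫ ψ in (-(π / 2))..(π / 2), ‖riemannZeta (pt (1 / 2) t + cr (7 * r) ψ)‖ ^ 2 := by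
    have hI : 0 ≤ ∫ ψ in (-(π / 2))..(π / 2),
        ‖riemannZeta (pt (1 / 2) t + cr (7 * r) ψ)‖ ^ 2 :=
      intervalIntegral.integral_nonneg (by linarith) fun ψ _ => by positivity
    calc ‖ZZ t w‖ ^ 2 ≤ (14 / π * exp (7 * r * (lam t / 2)) * J) ^ 2 := by gcongr
      _ = (196 / π ^ 2) * exp (7 * r * (lam t / 2)) ^ 2 * J ^ 2 := by ring
      _ ≤ (196 / π ^ 2) * exp (7 * r * (lam t / 2)) ^ 2 *
          (π * ∫ ψ in (-(π / 2))..(π / 2),
            ‖riemannZeta (pt (1 / 2) t + cr (7 * r) ψ)‖ ^ 2) := by gcongr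
      _ = (196 / π) * exp (7 * r * lam t) *
          ∫ ψ in (-(π / 2))..(π / 2), ‖riemannZeta (pt (1 / 2) t + cr (7 * r) ψ)‖ ^ 2 := by
          rw [h4]
          field_simp
      _ ≤ _ := by
          gcongr
          rw [div_le_iff₀ hπ]
          linarith
  rw [norm_mul, mul_pow]
  simp_rw [norm_mul, mul_pow]
  rw [intervalIntegral.integral_mul_const, ← mul_assoc]
  gcongr

end Pool.Agent.H92.HC
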